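import Pool.Agent.H712R5.BO.Stmts

/-!
Bishop operators over arbitrary measure preserving maps (helper712).  Definitions.
-/

set_option autoImplicit false
open scoped ComplexConjugate InnerProductSpace Topology
open Filter MeasureTheory NormedSpace

namespace Pool.Agent.H712R5.BG
open Pool.Agent.H712R5.BO

section General

variable {H : Type} [NormedAddCommGroup H] [InnerProductSpace ℂ H] [CompleteSpace H]

/-- the continuous map `θ ↦ e^{2 π i n θ} a` -/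
noncomputable def gen (a : H →L[ℂ] H) (n : ℤ) : C(UnitAddCircle, H →L[ℂ] H) :=
  ⟨fun θ => (fourier n θ : ℂ) • a, (fourier n).continuous.smul continuous_const⟩

theorem gen_apply (a : H →L[ℂ] H) (n : ℤ) (θ : UnitAddCircle) :
    gen a n θ = (fourier n θ : ℂ) • a := rfl

/-- translation `A ↦ A(· + s)` -/
noncomputable def rot (s : UnitAddCircle) (A : C(UnitAddCircle, H →L[ℂ] H)) :
    C(UnitAddCircle, H →L[ℂ] H) :=
  ⟨fun θ => A (θ + s), A.continuous.comp (continuous_add_const s)⟩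

theorem rot_apply (s : UnitAddCircle) (A : C(UnitAddCircle, H →L[ℂ] H)) (θ : UnitAddCircle) :
    rot s A θ = A (θ + s) := rfl

/-- the maps `θ ↦ e^{2 π i n θ} a U^n`, `a ∈ 𝒜`, `n ∈ ℤ` -/
def gset (𝒜 : StarSubalgebra ℂ (H →L[ℂ] H)) (U : unitary (H →L[ℂ] H)) :
    Set C(UnitAddCircle, H →L[ℂ] H) :=
  {A | ∃ a ∈ 𝒜, ∃ n : ℤ, A = gen (a * ((U ^ n : unitary (H →L[ℂ] H)) : H →L[ℂ] H)) n}

/-- the C*-algebra generated by `gset` -/
noncomputable def Gen (𝒜 : StarSubalgebra ℂ (H →L[ℂ] H)) (U : unitary (H →L[ℂ] H)) :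
    StarSubalgebra ℂ C(UnitAddCircle, H →L[ℂ] H) :=
  (StarAlgebra.adjoin ℂ (gset 𝒜 U)).topologicalClosure

instance isClosed_Gen (𝒜 : StarSubalgebra ℂ (H →L[ℂ] H)) (U : unitary (H →L[ℂ] H)) :
    IsClosed ((Gen 𝒜 U : StarSubalgebra ℂ C(UnitAddCircle, H →L[ℂ] H)) :
      Set C(UnitAddCircle, H →L[ℂ] H)) :=
  StarSubalgebra.isClosed_topologicalClosure _

noncomputable instance CSG (𝒜 : StarSubalgebra ℂ (H →L[ℂ] H)) (U : unitary (H →L[ℂ] H)) :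
    CStarAlgebra (Gen 𝒜 U) := StarSubalgebra.cstarAlgebra (Gen 𝒜 U)

/-- evaluation at `θ`  -/
noncomputable def evG (𝒜 : StarSubalgebra ℂ (H →L[ℂ] H)) (U : unitary (H →L[ℂ] H)) (θ : UnitAddCircle) :
    Gen 𝒜 U →⋆ₐ[ℂ] (H →L[ℂ] H) where
  toFun := fun A => (A : C(UnitAddCircle, H →L[ℂ] H)) θ
  map_one' := rfl
  map_mul' := fun _ _ => rfl
  map_zero' := rfl
  map_add' := fun _ _ => rfl
  commutes' := fun r => by
    simp [Algebra.algebraMap_eq_smul_one]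
  map_star' := fun _ => rfl

theorem evG_apply (𝒜 : StarSubalgebra ℂ (H →L[ℂ] H)) (U : unitary (H →L[ℂ] H)) (θ : UnitAddCircle)
    (A : Gen 𝒜 U) : evG 𝒜 U θ A = (A : C(UnitAddCircle, H →L[ℂ] H)) θ := rfl

theorem continuous_evG (𝒜 : StarSubalgebra ℂ (H →L[ℂ] H)) (U : unitary (H →L[ℂ] H)) (A : Gen 𝒜 U) :
    Continuous (fun θ => evG 𝒜 U θ A) := (A : C(UnitAddCircle, H →L[ℂ] H)).continuous

theorem integrable_evG (𝒜 : StarSubalgebra ℂ (H →L[ℂ] H)) (U : unitary (H →L[ℂ] H)) (v w : H) (A : Gen 𝒜 U) :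
    Integrable (fun θ => ⟪v, evG 𝒜 U θ A w⟫_ℂ) AddCircle.haarAddCircle := by
  have hc : Continuous (fun θ => ⟪v, evG 𝒜 U θ A w⟫_ℂ) :=
    continuous_const.inner ((continuous_evG 𝒜 U A).clm_apply continuous_const)
  exact hc.integrable_of_hasCompactSupport (HasCompactSupport.of_compactSpace _)

/-- `τ(A) = ∫ ⟨v, A(θ) v⟩ dθ` -/
noncomputable def tauG (𝒜 : StarSubalgebra ℂ (H →L[ℂ] H)) (U : unitary (H →L[ℂ] H)) (v : H) :
    Gen 𝒜 U →L[ℂ] ℂ :=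
  LinearMap.mkContinuous
    { toFun := fun A => ∫ θ, ⟪v, evG 𝒜 U θ A v⟫_ℂ ∂AddCircle.haarAddCircle
      map_add' := by
        intro A B
        rw [← integral_add (integrable_evG 𝒜 U v v A) (integrable_evG 𝒜 U v v B)]
        refine integral_congr_ae (Eventually.of_forall (fun θ => ?_))
        simp only [map_add, _root_.add_apply, inner_add_right]
      map_smul' := by
        intro c A
        rw [RingHom.id_apply, smul_eq_mul, ← integral_const_mul]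
        refine integral_congr_ae (Eventually.of_forall (fun θ => ?_))
        have h : evG 𝒜 U θ (c • A) = c • evG 𝒜 U θ A := rfl
        show ⟪v, (evG 𝒜 U θ (c • A)) v⟫_ℂ = c * ⟪v, (evG 𝒜 U θ A) v⟫_ℂ
        rw [h, _root_.smul_apply, inner_smul_right] }
    (‖v‖ ^ 2) (by
      intro A
      have h1 : ∀ θ : UnitAddCircle, ‖⟪v, evG 𝒜 U θ A v⟫_ℂ‖ ≤ ‖v‖ ^ 2 * ‖A‖ := by
        intro θ
        have h2 : ‖evG 𝒜 U θ A‖ ≤ ‖A‖ := (A : C(UnitAddCircle, H →L[ℂ] H)).norm_coe_le_norm θ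
        calc ‖⟪v, evG 𝒜 U θ A v⟫_ℂ‖ ≤ ‖v‖ * ‖evG 𝒜 U θ A v‖ := norm_inner_le_norm _ _
          _ ≤ ‖v‖ * (‖evG 𝒜 U θ A‖ * ‖v‖) := by
              gcongr
              exact (evG 𝒜 U θ A).le_opNorm v
          _ ≤ ‖v‖ * (‖A‖ * ‖v‖) := by gcongr
          _ = ‖v‖ ^ 2 * ‖A‖ := by ring
      have h3 := norm_integral_le_of_norm_le_const (μ := AddCircle.haarAddCircle)
        (Eventually.of_forall h1)
      simpa using h3)

theorem tauG_apply (𝒜 : StarSubalgebra ℂ (H →L[ℂ] H)) (U : unitary (H →L[ℂ] H)) (v : H) (A : Gen 𝒜 U) :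
    tauG 𝒜 U v A = ∫ θ, ⟪v, evG 𝒜 U θ A v⟫_ℂ ∂AddCircle.haarAddCircle := rfl

/-- the element `θ ↦ e^{2 π i θ} T` of `Gen` -/
noncomputable def TG (𝒜 : StarSubalgebra ℂ (H →L[ℂ] H)) (U : unitary (H →L[ℂ] H)) (T : H →L[ℂ] H)
    (hT : gen T 1 ∈ Gen 𝒜 U) : Gen 𝒜 U := ⟨gen T 1, hT⟩

theorem evG_TG (𝒜 : StarSubalgebra ℂ (H →L[ℂ] H)) (U : unitary (H →L[ℂ] H)) (T : H →L[ℂ] H)
    (hT : gen T 1 ∈ Gen 𝒜 U) (θ : UnitAddCircle) : evG 𝒜 U θ (TG 𝒜 U T hT) = (fourier 1 θ : ℂ) • T := rfl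

/-- the data: a commutative algebra `𝒜` normalized by `U`, and a unit vector fixed by `U` -/
structure GD (𝒜 : StarSubalgebra ℂ (H →L[ℂ] H)) (U : unitary (H →L[ℂ] H)) (e : H) : Prop where
  comm : ∀ a ∈ 𝒜, ∀ b ∈ 𝒜, a * b = b * a
  conj1 : ∀ a ∈ 𝒜, (U : H →L[ℂ] H) * a * star (U : H →L[ℂ] H) ∈ 𝒜
  conj2 : ∀ a ∈ 𝒜, star (U : H →L[ℂ] H) * a * (U : H →L[ℂ] H) ∈ 𝒜
  fix : (U : H →L[ℂ] H) e = e
  nrm : ‖e‖ = 1

end General

end Pool.Agent.H712R5.BG
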