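import Pool.Agent.H712R5.BG.Stmts

/-!
E0: `adjoin (gset)` is contained in the linear span of `gset`.
-/

set_option autoImplicit false
open scoped ComplexConjugate InnerProductSpace Topology
open Filter MeasureTheory NormedSpace

namespace Pool.Agent.H712R5.BG
open Pool.Agent.H712R5.BO

section

variable {H : Type} [NormedAddCommGroup H] [InnerProductSpace ℂ H] [CompleteSpace H]

theorem E0_conj {𝒜 : StarSubalgebra ℂ (H →L[ℂ] H)} {U : unitary (H →L[ℂ] H)} {e : H}
    (h : GD 𝒜 U e) {a : H →L[ℂ] H} (ha : a ∈ 𝒜) (n : ℤ) :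
    ((U ^ n : unitary (H →L[ℂ] H)) : H →L[ℂ] H) * a
      * star ((U ^ n : unitary (H →L[ℂ] H)) : H →L[ℂ] H) ∈ 𝒜 := by
  induction n using Int.induction_on with
  | zero => simpa using ha
  | succ n ih =>
    have e1 : ((U ^ ((n : ℤ) + 1) : unitary (H →L[ℂ] H)) : H →L[ℂ] H)
        = (U : H →L[ℂ] H) * ((U ^ (n : ℤ) : unitary (H →L[ℂ] H)) : H →L[ℂ] H) := by
      rw [add_comm, zpow_add, zpow_one]
      rfl
    have e2 := h.conj1 _ ih
    rw [e1, star_mul]
    simpa only [mul_assoc] using e2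
  | pred n ih =>
    have e1 : ((U ^ (-(n : ℤ) - 1) : unitary (H →L[ℂ] H)) : H →L[ℂ] H)
        = star (U : H →L[ℂ] H) * ((U ^ (-(n : ℤ)) : unitary (H →L[ℂ] H)) : H →L[ℂ] H) := by
      have : U ^ (-(n : ℤ) - 1) = star U * U ^ (-(n : ℤ)) := by
        rw [sub_eq_add_neg, add_comm, zpow_add, zpow_neg, zpow_one, Unitary.star_eq_inv]
      rw [this]
      rfl
    have e2 := h.conj2 _ ih
    rw [e1, star_mul, star_star]
    simpa only [mul_assoc] using e2

theorem E0_one {𝒜 : StarSubalgebra ℂ (H →L[ℂ] H)} {U : unitary (H →L[ℂ] H)} :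
    (1 : C(UnitAddCircle, H →L[ℂ] H)) ∈ gset 𝒜 U := by
  refine ⟨1, one_mem _, 0, ?_⟩
  ext1 θ
  rw [gen_apply]
  simp

theorem E0_mul {𝒜 : StarSubalgebra ℂ (H →L[ℂ] H)} {U : unitary (H →L[ℂ] H)} {e : H}
    (h : GD 𝒜 U e) {A B : C(UnitAddCircle, H →L[ℂ] H)} (hA : A ∈ gset 𝒜 U) (hB : B ∈ gset 𝒜 U) :
    A * B ∈ gset 𝒜 U := by
  obtain ⟨a, ha, n, rfl⟩ := hA
  obtain ⟨c, hc, m, rfl⟩ := hB
  refine ⟨a * (((U ^ n : unitary (H →L[ℂ] H)) : H →L[ℂ] H) * c
      * star ((U ^ n : unitary (H →L[ℂ] H)) : H →L[ℂ] H)), mul_mem ha (E0_conj h hc n), n + m, ?_⟩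
  have hs : star ((U ^ n : unitary (H →L[ℂ] H)) : H →L[ℂ] H)
      * ((U ^ n : unitary (H →L[ℂ] H)) : H →L[ℂ] H) = 1 := Unitary.coe_star_mul_self _
  have e1 : ((U ^ (n + m) : unitary (H →L[ℂ] H)) : H →L[ℂ] H)
      = ((U ^ n : unitary (H →L[ℂ] H)) : H →L[ℂ] H)
        * ((U ^ m : unitary (H →L[ℂ] H)) : H →L[ℂ] H) := by
    rw [zpow_add]
    rfl
  ext1 θ
  rw [ContinuousMap.mul_apply, gen_apply, gen_apply, gen_apply, smul_mul_smul_comm, fourier_add, e1]
  congr 1
  generalize ((U ^ n : unitary (H →L[ℂ] H)) : H →L[ℂ] H) = V at *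
  generalize ((U ^ m : unitary (H →L[ℂ] H)) : H →L[ℂ] H) = W at *
  calc a * V * (c * W) = a * (V * c) * W := by simp only [mul_assoc]
    _ = a * (V * c) * (star V * V) * W := by rw [hs, mul_one]
    _ = a * (V * c * star V) * (V * W) := by simp only [mul_assoc]

theorem E0_star {𝒜 : StarSubalgebra ℂ (H →L[ℂ] H)} {U : unitary (H →L[ℂ] H)} {e : H}
    (h : GD 𝒜 U e) {A : C(UnitAddCircle, H →L[ℂ] H)} (hA : A ∈ gset 𝒜 U) :
    star A ∈ gset 𝒜 U := by
  obtain ⟨a, ha, n, rfl⟩ := hA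
  refine ⟨_, E0_conj h (star_mem ha) (-n), -n, ?_⟩
  have hs : star ((U ^ (-n) : unitary (H →L[ℂ] H)) : H →L[ℂ] H)
      * ((U ^ (-n) : unitary (H →L[ℂ] H)) : H →L[ℂ] H) = 1 := Unitary.coe_star_mul_self _
  have e1 : star ((U ^ n : unitary (H →L[ℂ] H)) : H →L[ℂ] H)
      = ((U ^ (-n) : unitary (H →L[ℂ] H)) : H →L[ℂ] H) := by
    have : star (U ^ n) = U ^ (-n) := by rw [Unitary.star_eq_inv, zpow_neg]
    rw [← this]
    rfl
  ext1 θ
  rw [ContinuousMap.star_apply, gen_apply, gen_apply, star_smul, star_mul, e1, mul_assoc, hs,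
    mul_one, fourier_neg]
  rfl

end

theorem t_E0 : P_E0 := by
  intro H _ _ _ 𝒜 U e h A hA
  let S : StarSubalgebra ℂ C(UnitAddCircle, H →L[ℂ] H) :=
    { carrier := {B | B ∈ Submodule.span ℂ (gset 𝒜 U)}
      mul_mem' := by
        intro B C hB hC
        simp only [Set.mem_ofPred_eq] at *
        induction hB, hC using Submodule.span_induction₂ with
        | mem_mem x y hx hy => exact Submodule.subset_span (E0_mul h hx hy)
        | zero_left y hy => simp
        | zero_right x hx => simp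
        | add_left x y z hx hy hz h1 h2 => rw [add_mul]; exact add_mem h1 h2
        | add_right x y z hx hy hz h1 h2 => rw [mul_add]; exact add_mem h1 h2
        | smul_left r x y hx hy h1 => rw [smul_mul_assoc]; exact Submodule.smul_mem _ _ h1
        | smul_right r x y hx hy h1 => rw [mul_smul_comm]; exact Submodule.smul_mem _ _ h1
      one_mem' := Submodule.subset_span E0_one
      add_mem' := fun hB hC => Submodule.add_mem (Submodule.span ℂ (gset 𝒜 U)) hB hC
      zero_mem' := Submodule.zero_mem (Submodule.span ℂ (gset 𝒜 U))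
      algebraMap_mem' := by
        intro r
        rw [Algebra.algebraMap_eq_smul_one]
        exact Submodule.smul_mem _ _ (Submodule.subset_span E0_one)
      star_mem' := by
        intro B hB
        simp only [Set.mem_ofPred_eq] at *
        induction hB using Submodule.span_induction with
        | mem x hx => exact Submodule.subset_span (E0_star h hx)
        | zero => simp
        | add x y hx hy h1 h2 => rw [star_add]; exact add_mem h1 h2
        | smul r x hx h1 => rw [star_smul]; exact Submodule.smul_mem _ _ h1 }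
  have hle : StarAlgebra.adjoin ℂ (gset 𝒜 U) ≤ S :=
    StarAlgebra.adjoin_le (fun B hB => Submodule.subset_span hB)
  exact hle hA

end Pool.Agent.H712R5.BG
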