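import Pool.Agent.H712R5.BG.Stmts

set_option autoImplicit false
open scoped ComplexConjugate InnerProductSpace Topology
open Filter MeasureTheory NormedSpace

namespace Pool.Agent.H712R5.BG
open Pool.Agent.H712R5.BO

section
variable {H : Type} [NormedAddCommGroup H] [InnerProductSpace ℂ H] [CompleteSpace H]

/-- the subgroup of the unitaries that fix `e` and normalize `𝒜` -/
def E10_S (𝒜 : StarSubalgebra ℂ (H →L[ℂ] H)) (e : H) : Subgroup (unitary (H →L[ℂ] H)) where
  carrier := {V | ((V : H →L[ℂ] H) e = e ∧ (star (V : H →L[ℂ] H)) e = e) ∧ ∀ a ∈ 𝒜,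
    (V : H →L[ℂ] H) * a * star (V : H →L[ℂ] H) ∈ 𝒜 ∧
    star (V : H →L[ℂ] H) * a * (V : H →L[ℂ] H) ∈ 𝒜}
  mul_mem' := by
    rintro V W ⟨⟨h1, h2⟩, h3⟩ ⟨⟨h4, h5⟩, h6⟩
    refine ⟨⟨?_, ?_⟩, fun a ha => ⟨?_, ?_⟩⟩
    · show (V : H →L[ℂ] H) ((W : H →L[ℂ] H) e) = e
      rw [h4, h1]
    · show (star ((V : H →L[ℂ] H) * (W : H →L[ℂ] H))) e = e
      rw [star_mul]
      show (star (W : H →L[ℂ] H)) ((star (V : H →L[ℂ] H)) e) = e
      rw [h2, h5]
    · have h7 := (h3 _ (h6 a ha).1).1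
      have h8 : ((V * W : unitary (H →L[ℂ] H)) : H →L[ℂ] H) * a *
          star ((V * W : unitary (H →L[ℂ] H)) : H →L[ℂ] H) =
          (V : H →L[ℂ] H) * ((W : H →L[ℂ] H) * a * star (W : H →L[ℂ] H)) *
            star (V : H →L[ℂ] H) := by
        show (V : H →L[ℂ] H) * (W : H →L[ℂ] H) * a * star ((V : H →L[ℂ] H) * (W : H →L[ℂ] H)) = _
        rw [star_mul]
        noncomm_ring
      rw [h8]
      exact h7
    · have h7 := (h6 _ (h3 a ha).2).2
      have h8 : star ((V * W : unitary (H →L[ℂ] H)) : H →L[ℂ] H) * a *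
          ((V * W : unitary (H →L[ℂ] H)) : H →L[ℂ] H) =
          star (W : H →L[ℂ] H) * (star (V : H →L[ℂ] H) * a * (V : H →L[ℂ] H)) *
            (W : H →L[ℂ] H) := by
        show star ((V : H →L[ℂ] H) * (W : H →L[ℂ] H)) * a * ((V : H →L[ℂ] H) * (W : H →L[ℂ] H)) = _
        rw [star_mul]
        noncomm_ring
      rw [h8]
      exact h7
  one_mem' := by
    refine ⟨⟨rfl, ?_⟩, fun a ha => ⟨?_, ?_⟩⟩
    · show (star (1 : H →L[ℂ] H)) e = e
      rw [star_one]
      rfl
    · show (1 : H →L[ℂ] H) * a * star (1 : H →L[ℂ] H) ∈ 𝒜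
      rw [star_one, one_mul, mul_one]
      exact ha
    · show star (1 : H →L[ℂ] H) * a * (1 : H →L[ℂ] H) ∈ 𝒜
      rw [star_one, one_mul, mul_one]
      exact ha
  inv_mem' := by
    rintro V ⟨⟨h1, h2⟩, h3⟩
    refine ⟨⟨h2, ?_⟩, fun a ha => ⟨?_, ?_⟩⟩
    · show (star (star (V : H →L[ℂ] H))) e = e
      rw [star_star, h1]
    · show star (V : H →L[ℂ] H) * a * star (star (V : H →L[ℂ] H)) ∈ 𝒜
      rw [star_star]
      exact (h3 a ha).2
    · show star (star (V : H →L[ℂ] H)) * a * star (V : H →L[ℂ] H) ∈ 𝒜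
      rw [star_star]
      exact (h3 a ha).1

theorem E10_pow {𝒜 : StarSubalgebra ℂ (H →L[ℂ] H)} {U : unitary (H →L[ℂ] H)} {e : H}
    (h : GD 𝒜 U e) (n : ℤ) : U ^ n ∈ E10_S 𝒜 e := by
  apply Subgroup.zpow_mem
  refine ⟨⟨h.fix, ?_⟩, fun a ha => ⟨h.conj1 a ha, h.conj2 a ha⟩⟩
  have h1 : (star (U : H →L[ℂ] H)) ((U : H →L[ℂ] H) e) = e := by
    have h2 : star (U : H →L[ℂ] H) * (U : H →L[ℂ] H) = 1 := Unitary.coe_star_mul_self U
    calc (star (U : H →L[ℂ] H)) ((U : H →L[ℂ] H) e) =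
        (star (U : H →L[ℂ] H) * (U : H →L[ℂ] H)) e := rfl
      _ = e := by rw [h2]; rfl
  rw [h.fix] at h1
  exact h1

theorem E10_norm (n : ℤ) (θ : UnitAddCircle) : ‖(fourier n θ : ℂ)‖ = 1 := by
  rw [fourier_apply]
  exact Circle.norm_coe _

theorem E10_int (n : ℤ) (w : H) (A : C(UnitAddCircle, H →L[ℂ] H)) :
    Integrable (fun θ => (fourier n θ : ℂ) • (A θ) w) AddCircle.haarAddCircle := by
  have hc : Continuous (fun θ => (fourier n θ : ℂ) • (A θ) w) :=
    (fourier n).continuous.smul (A.continuous.clm_apply continuous_const)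
  exact hc.integrable_of_hasCompactSupport (HasCompactSupport.of_compactSpace _)

/-- the Fourier coefficient -/
noncomputable def E10_F (n : ℤ) (w : H) : C(UnitAddCircle, H →L[ℂ] H) →L[ℂ] H :=
  LinearMap.mkContinuous
    { toFun := fun A => ∫ θ, (fourier n θ : ℂ) • (A θ) w ∂AddCircle.haarAddCircle
      map_add' := by
        intro A B
        rw [← integral_add (E10_int n w A) (E10_int n w B)]
        refine integral_congr_ae (Eventually.of_forall (fun θ => ?_))
        show (fourier n θ : ℂ) • ((A θ) w + (B θ) w) = _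
        rw [smul_add]
      map_smul' := by
        intro c A
        rw [RingHom.id_apply, ← integral_smul]
        refine integral_congr_ae (Eventually.of_forall (fun θ => ?_))
        show (fourier n θ : ℂ) • (c • ((A θ) w)) = c • ((fourier n θ : ℂ) • ((A θ) w))
        rw [smul_comm] }
    ‖w‖ (by
      intro A
      have h1 : ∀ θ : UnitAddCircle, ‖(fourier n θ : ℂ) • (A θ) w‖ ≤ ‖w‖ * ‖A‖ := by
        intro θ
        rw [norm_smul, E10_norm, one_mul]
        calc ‖(A θ) w‖ ≤ ‖A θ‖ * ‖w‖ := (A θ).le_opNorm w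
          _ ≤ ‖A‖ * ‖w‖ := by
              gcongr
              exact A.norm_coe_le_norm θ
          _ = ‖w‖ * ‖A‖ := by ring
      have h3 := norm_integral_le_of_norm_le_const (μ := AddCircle.haarAddCircle)
        (Eventually.of_forall h1)
      simpa using h3)

theorem E10_F_apply (n : ℤ) (w : H) (A : C(UnitAddCircle, H →L[ℂ] H)) :
    E10_F n w A = ∫ θ, (fourier n θ : ℂ) • (A θ) w ∂AddCircle.haarAddCircle := rfl

theorem E10_orth (n k : ℤ) :
    ∫ θ : UnitAddCircle, (fourier (-n) θ : ℂ) * (fourier k θ : ℂ) ∂AddCircle.haarAddCircle =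
      if n = k then 1 else 0 := by
  have h := orthonormal_fourier (T := (1:ℝ))
  have h1 := (orthonormal_iff_ite.mp h) n k
  rw [ContinuousMap.inner_toLp] at h1
  rw [← h1]
  refine integral_congr_ae (Eventually.of_forall (fun θ => ?_))
  show (fourier (-n) θ : ℂ) * (fourier k θ : ℂ) = _
  rw [fourier_neg]
  first
    | rfl
    | exact mul_comm _ _

theorem E10_gen (n k : ℤ) (w : H) (b : H →L[ℂ] H) :
    E10_F (-n) w (gen b k) = if n = k then b w else 0 := by
  rw [E10_F_apply]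
  have h1 : ∀ θ : UnitAddCircle, (fourier (-n) θ : ℂ) • (gen b k θ) w =
      ((fourier (-n) θ : ℂ) * (fourier k θ : ℂ)) • b w := by
    intro θ
    rw [gen_apply, _root_.smul_apply, smul_smul]
  simp only [h1]
  rw [integral_smul_const, E10_orth]
  split_ifs
  · rw [one_smul]
  · rw [zero_smul]

end

theorem t_E10 (hX : P_E0) : P_E10 := by
  intro H _ _ _ 𝒜 U e hG A m hm n
  obtain ⟨⟨h1, h2⟩, h3⟩ := E10_pow hG n
  set V : H →L[ℂ] H := ((U ^ n : unitary (H →L[ℂ] H)) : H →L[ℂ] H) with hV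
  show E10_F (-n) (m e) (A : C(UnitAddCircle, H →L[ℂ] H)) =
    (V * m * star V) (E10_F (-n) e (A : C(UnitAddCircle, H →L[ℂ] H)))
  let D : C(UnitAddCircle, H →L[ℂ] H) →L[ℂ] H :=
    E10_F (-n) (m e) - (V * m * star V) ∘L (E10_F (-n) e)
  have hg : ∀ B ∈ gset 𝒜 U, D B = 0 := by
    rintro B ⟨a, ha, k, rfl⟩
    show E10_F (-n) (m e) (gen (a * ((U ^ k : unitary (H →L[ℂ] H)) : H →L[ℂ] H)) k) -
      (V * m * star V) (E10_F (-n) e (gen (a * ((U ^ k : unitary (H →L[ℂ] H)) : H →L[ℂ] H)) k)) = 0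
    rw [E10_gen, E10_gen]
    split_ifs with hnk
    · subst hnk
      rw [← hV]
      have h4 : V * m * star V * a = a * (V * m * star V) := hG.comm _ (h3 m hm).1 _ ha
      have h5 : (V * m * star V) ((a * V) e) = (a * (V * m * star V)) e := by
        show (V * m * star V) (a (V e)) = _
        rw [h1, ← h4]
        rfl
      have h6 : (a * (V * m * star V)) e = (a * V) (m e) := by
        show a (V (m ((star V) e))) = a (V (m e))
        rw [h2]
      rw [h5, h6, sub_self]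
    · rw [map_zero, sub_zero]
  have hs : ∀ B ∈ Submodule.span ℂ (gset 𝒜 U), D B = 0 := by
    intro B hB
    induction hB using Submodule.span_induction with
    | mem x hx => exact hg x hx
    | zero => exact map_zero _
    | add x y _ _ hx hy => rw [map_add, hx, hy, add_zero]
    | smul c x _ hx => rw [map_smul, hx, smul_zero]
  have hcl : ∀ B ∈ (Gen 𝒜 U : StarSubalgebra ℂ C(UnitAddCircle, H →L[ℂ] H)), D B = 0 := by
    intro B hB
    have h4 : B ∈ closure ((StarAlgebra.adjoin ℂ (gset 𝒜 U) :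
        StarSubalgebra ℂ C(UnitAddCircle, H →L[ℂ] H)) : Set C(UnitAddCircle, H →L[ℂ] H)) := hB
    have h5 : IsClosed {B : C(UnitAddCircle, H →L[ℂ] H) | D B = 0} :=
      isClosed_eq D.continuous continuous_const
    exact closure_minimal (fun C hC => hs C (hX H 𝒜 U e hG C hC)) h5 h4
  have h6 := hcl A A.2
  exact sub_eq_zero.1 h6

end Pool.Agent.H712R5.BG
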