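import Pool.Agent.H712R5.BG.Stmts

/-!
E11 (helper90): the limit is not scalar.
-/

set_option autoImplicit false
open scoped ComplexConjugate InnerProductSpace Topology
open Filter MeasureTheory NormedSpace

namespace Pool.Agent.H712R5.BG
open Pool.Agent.H712R5.BO

theorem E11_jensen {H : Type} [NormedAddCommGroup H] [InnerProductSpace ℂ H] [CompleteSpace H]
    (g : UnitAddCircle → H) (hg : MemLp g 2 AddCircle.haarAddCircle) :
    (∫ θ, ‖g θ‖ ∂AddCircle.haarAddCircle) ^ 2 ≤ ∫ θ, ‖g θ‖ ^ 2 ∂AddCircle.haarAddCircle := by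
  have hi1 : Integrable (fun θ => ‖g θ‖) AddCircle.haarAddCircle :=
    (hg.integrable (by norm_num)).norm
  have hi2 : Integrable (fun θ => ‖g θ‖ ^ 2) AddCircle.haarAddCircle :=
    hg.integrable_norm_pow (by norm_num)
  set m := ∫ θ, ‖g θ‖ ∂AddCircle.haarAddCircle with hm
  have h9 : 0 ≤ ∫ θ, (‖g θ‖ - m) ^ 2 ∂AddCircle.haarAddCircle :=
    integral_nonneg (fun θ => sq_nonneg _)
  have h10 : ∀ θ, (‖g θ‖ - m) ^ 2
      = ‖g θ‖ ^ 2 - (2 * m) * ‖g θ‖ + m ^ 2 := fun θ => by ring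
  have h11 : ∫ θ, (‖g θ‖ - m) ^ 2 ∂AddCircle.haarAddCircle
      = (∫ θ, ‖g θ‖ ^ 2 ∂AddCircle.haarAddCircle) - (2 * m) * m + m ^ 2 := by
    have hiA : Integrable (fun θ => ‖g θ‖ ^ 2 - (2 * m) * ‖g θ‖)
        AddCircle.haarAddCircle := hi2.sub (hi1.const_mul _)
    calc ∫ θ, (‖g θ‖ - m) ^ 2 ∂AddCircle.haarAddCircle
        = ∫ θ, ((‖g θ‖ ^ 2 - (2 * m) * ‖g θ‖) + m ^ 2)
            ∂AddCircle.haarAddCircle := integral_congr_ae (Eventually.of_forall h10)
      _ = (∫ θ, (‖g θ‖ ^ 2 - (2 * m) * ‖g θ‖) ∂AddCircle.haarAddCircle)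
            + ∫ _θ : UnitAddCircle, m ^ 2 ∂AddCircle.haarAddCircle :=
          integral_add hiA (integrable_const _)
      _ = _ := by
          rw [integral_sub hi2 (hi1.const_mul _), integral_const_mul, ← hm]
          simp
  rw [h11] at h9
  nlinarith [h9]

theorem E11_norm (n : ℤ) (θ : UnitAddCircle) : ‖(fourier n θ : ℂ)‖ = 1 := by
  rw [fourier_apply]; exact Circle.norm_coe _

theorem E11_int {H : Type} [NormedAddCommGroup H] [InnerProductSpace ℂ H] [CompleteSpace H]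
    (n : ℤ) (g : UnitAddCircle → H) (hg : Integrable g AddCircle.haarAddCircle) :
    Integrable (fun θ => (fourier n θ : ℂ) • g θ) AddCircle.haarAddCircle := by
  exact hg.bdd_smul 1 (fourier n).continuous.aestronglyMeasurable
    (Eventually.of_forall fun θ => (E11_norm n θ).le)

theorem E11_conv {H : Type} [NormedAddCommGroup H] [InnerProductSpace ℂ H] [CompleteSpace H]
    (f : ℕ → UnitAddCircle → H) (g : UnitAddCircle → H) (n : ℤ)
    (hf : ∀ i, MemLp (f i) 2 AddCircle.haarAddCircle)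
    (hg : MemLp g 2 AddCircle.haarAddCircle)
    (hlim : Tendsto (fun i => ∫ θ, ‖f i θ - g θ‖ ^ 2 ∂AddCircle.haarAddCircle) atTop (𝓝 0)) :
    Tendsto (fun i => ∫ θ, (fourier n θ : ℂ) • f i θ ∂AddCircle.haarAddCircle) atTop
      (𝓝 (∫ θ, (fourier n θ : ℂ) • g θ ∂AddCircle.haarAddCircle)) := by
  rw [tendsto_iff_norm_sub_tendsto_zero]
  have h1 : ∀ i, ‖(∫ θ, (fourier n θ : ℂ) • f i θ ∂AddCircle.haarAddCircle)
      - ∫ θ, (fourier n θ : ℂ) • g θ ∂AddCircle.haarAddCircle‖ ≤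
      Real.sqrt (∫ θ, ‖f i θ - g θ‖ ^ 2 ∂AddCircle.haarAddCircle) := by
    intro i
    apply Real.le_sqrt_of_sq_le
    have hd : MemLp (fun θ => f i θ - g θ) 2 AddCircle.haarAddCircle := (hf i).sub hg
    refine le_trans ?_ (E11_jensen _ hd)
    apply pow_le_pow_left₀ (norm_nonneg _)
    rw [← integral_sub (E11_int n _ ((hf i).integrable (by norm_num)))
      (E11_int n _ (hg.integrable (by norm_num)))]
    refine (norm_integral_le_integral_norm _).trans (le_of_eq ?_)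
    refine integral_congr_ae (Eventually.of_forall fun θ => ?_)
    show ‖(fourier n θ : ℂ) • f i θ - (fourier n θ : ℂ) • g θ‖ = ‖f i θ - g θ‖
    rw [← smul_sub, norm_smul, E11_norm, one_mul]
  have h2 : Tendsto (fun i => Real.sqrt (∫ θ, ‖f i θ - g θ‖ ^ 2 ∂AddCircle.haarAddCircle))
      atTop (𝓝 0) := by
    have := (Real.continuous_sqrt.tendsto 0).comp hlim
    rw [Real.sqrt_zero] at this
    exact this
  exact squeeze_zero (fun i => norm_nonneg _) h1 h2

theorem E11_ext {H : Type} [NormedAddCommGroup H] [InnerProductSpace ℂ H] [CompleteSpace H]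
    (b : HilbertBasis ℤ ℂ H) (T : H →L[ℂ] H) (h : ∀ r, T (b r) = b r) : T = 1 := by
  have hd : Dense ((Submodule.span ℂ (Set.range b) : Submodule ℂ H) : Set H) := by
    rw [Submodule.dense_iff_topologicalClosure_eq_top]
    exact b.dense_span
  refine ContinuousLinearMap.ext_on (s := Set.range b) hd ?_
  rintro x ⟨r, rfl⟩
  simpa using h r

theorem E11_pow {H : Type} [NormedAddCommGroup H] [InnerProductSpace ℂ H] [CompleteSpace H]
    (U : unitary (H →L[ℂ] H)) (e : H) (h : (U : H →L[ℂ] H) e = e) (n : ℤ) :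
    ((U ^ n : unitary (H →L[ℂ] H)) : H →L[ℂ] H) e = e := by
  have hinv : ∀ V : unitary (H →L[ℂ] H), (V : H →L[ℂ] H) e = e →
      ((V⁻¹ : unitary (H →L[ℂ] H)) : H →L[ℂ] H) e = e := by
    intro V hV
    have h1 : ((V⁻¹ * V : unitary (H →L[ℂ] H)) : H →L[ℂ] H) e = e := by
      rw [inv_mul_cancel]; rfl
    have h2 : ((V⁻¹ * V : unitary (H →L[ℂ] H)) : H →L[ℂ] H) e
        = ((V⁻¹ : unitary (H →L[ℂ] H)) : H →L[ℂ] H) ((V : H →L[ℂ] H) e) := rfl
    rw [h2, hV] at h1
    exact h1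
  have hnat : ∀ k : ℕ, ((U ^ k : unitary (H →L[ℂ] H)) : H →L[ℂ] H) e = e := by
    intro k
    induction k with
    | zero => rw [pow_zero]; rfl
    | succ k ih =>
      have h2 : ((U ^ (k + 1) : unitary (H →L[ℂ] H)) : H →L[ℂ] H) e
          = ((U ^ k : unitary (H →L[ℂ] H)) : H →L[ℂ] H) ((U : H →L[ℂ] H) e) := by
        rw [pow_succ]; rfl
      rw [h2, h, ih]
  cases n with
  | ofNat k =>
    have : U ^ (Int.ofNat k) = U ^ k := zpow_natCast U k
    rw [this]; exact hnat k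
  | negSucc k =>
    rw [zpow_negSucc]
    exact hinv _ (hnat _)

theorem t_E11 (h : P_E10) : P_E11 := by
  intro H _ _ _ 𝒜 U b m hGD hm hU A Y hY hlim hre him hc hsc
  obtain ⟨c, hc0, hc⟩ := hc
  have hb0 : ‖b 0‖ = 1 := b.orthonormal.1 0
  set ζ : UnitAddCircle → ℂ := fun θ => ⟪b 0, Y 0 θ⟫_ℂ with hζ
  have hζL : MemLp ζ 2 AddCircle.haarAddCircle := (hY 0).const_inner (b 0)
  have hs : ∀ᵐ θ ∂AddCircle.haarAddCircle, ∀ r, Y r θ = ζ θ • b r := by
    filter_upwards [hsc] with θ h1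
    obtain ⟨z, hz⟩ := h1
    have : ζ θ = z := by
      simp only [hζ, hz 0, inner_smul_right]
      rw [inner_self_eq_norm_sq_to_K, hb0]; simp
    intro r
    rw [hz r, this]
  have hAL : ∀ i r, MemLp (fun θ => evG 𝒜 U θ (A i) (b r)) 2 AddCircle.haarAddCircle := by
    intro i r
    have : Continuous (fun θ => evG 𝒜 U θ (A i) (b r)) :=
      (continuous_evG 𝒜 U (A i)).clm_apply continuous_const
    exact this.memLp_of_hasCompactSupport (HasCompactSupport.of_compactSpace _)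
  set cn : ℤ → ℂ := fun n => ∫ θ, (fourier (-n) θ : ℂ) • ζ θ ∂AddCircle.haarAddCircle with hcn
  have hI : ∀ (n r : ℤ), ∫ θ, (fourier (-n) θ : ℂ) • Y r θ ∂AddCircle.haarAddCircle
      = cn n • b r := by
    intro n r
    rw [hcn, ← integral_smul_const]
    refine integral_congr_ae ?_
    filter_upwards [hs] with θ h1
    rw [h1 r, smul_assoc]
  have hT : ∀ (n r : ℤ), Tendsto (fun i => ∫ θ, (fourier (-n) θ : ℂ) • evG 𝒜 U θ (A i) (b r)
      ∂AddCircle.haarAddCircle) atTop (𝓝 (cn n • b r)) := by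
    intro n r
    rw [← hI n r]
    exact E11_conv _ _ (-n) (fun i => hAL i r) (hY r) (hlim r)
  -- the relation
  have hrel : ∀ (n r : ℤ), cn n • ((U ^ n : unitary (H →L[ℂ] H)) : H →L[ℂ] H) (b r)
      = cn n • b r := by
    intro n r
    have h1 := hT n r
    have h2 : ∀ i, ∫ θ, (fourier (-n) θ : ℂ) • evG 𝒜 U θ (A i) (b r) ∂AddCircle.haarAddCircle
        = (((U ^ n : unitary (H →L[ℂ] H)) : H →L[ℂ] H) * m r
          * star ((U ^ n : unitary (H →L[ℂ] H)) : H →L[ℂ] H))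
          (∫ θ, (fourier (-n) θ : ℂ) • evG 𝒜 U θ (A i) (b 0) ∂AddCircle.haarAddCircle) := by
      intro i
      have := h H 𝒜 U (b 0) hGD (A i) (m r) (hm r).1 n
      rw [(hm r).2] at this
      exact this
    simp_rw [h2] at h1
    have h3 := ((((U ^ n : unitary (H →L[ℂ] H)) : H →L[ℂ] H) * m r
          * star ((U ^ n : unitary (H →L[ℂ] H)) : H →L[ℂ] H)).continuous.tendsto _).comp (hT n 0)
    have h4 := tendsto_nhds_unique h1 h3
    have h5 : (((U ^ n : unitary (H →L[ℂ] H)) : H →L[ℂ] H) * m r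
          * star ((U ^ n : unitary (H →L[ℂ] H)) : H →L[ℂ] H)) (cn n • b 0)
        = cn n • ((U ^ n : unitary (H →L[ℂ] H)) : H →L[ℂ] H) (b r) := by
      rw [map_smul]
      congr 1
      have h6 : star ((U ^ n : unitary (H →L[ℂ] H)) : H →L[ℂ] H) (b 0) = b 0 := by
        have h7 := E11_pow U (b 0) hGD.fix (-n)
        rw [zpow_neg] at h7
        exact h7
      show ((U ^ n : unitary (H →L[ℂ] H)) : H →L[ℂ] H) (m r
        (star ((U ^ n : unitary (H →L[ℂ] H)) : H →L[ℂ] H) (b 0))) = _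
      rw [h6, (hm r).2]
    rw [h5] at h4
    exact h4.symm
  have hn : ∀ n : ℤ, n ≠ 0 → cn n = 0 := by
    intro n hn0
    by_contra hne
    apply hU n hn0
    have h1 : ((U ^ n : unitary (H →L[ℂ] H)) : H →L[ℂ] H) = 1 := by
      apply E11_ext b
      intro r
      exact smul_right_injective H hne (hrel n r)
    exact Subtype.ext h1
  have h0 : cn 0 = 0 := by
    have h1 := hT 0 0
    have h2 : Tendsto (fun i => ⟪b 0, ∫ θ, (fourier (-0) θ : ℂ) • evG 𝒜 U θ (A i) (b 0)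
      ∂AddCircle.haarAddCircle⟫_ℂ) atTop (𝓝 ⟪b 0, cn 0 • b 0⟫_ℂ) :=
      tendsto_const_nhds.inner h1
    have h3 : ⟪b 0, cn 0 • b 0⟫_ℂ = cn 0 := by
      rw [inner_smul_right, inner_self_eq_norm_sq_to_K, hb0]; simp
    have h4 : ∀ i, ⟪b 0, ∫ θ, (fourier (-0) θ : ℂ) • evG 𝒜 U θ (A i) (b 0)
      ∂AddCircle.haarAddCircle⟫_ℂ = 0 := by
      intro i
      have h5 : ⟪b 0, ∫ θ, (fourier (-0) θ : ℂ) • evG 𝒜 U θ (A i) (b 0)
          ∂AddCircle.haarAddCircle⟫_ℂ = tauG 𝒜 U (b 0) (A i) := by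
        rw [tauG_apply, ← integral_inner (E11_int _ _ ((hAL i 0).integrable (by norm_num)))]
        refine integral_congr_ae (Eventually.of_forall fun θ => ?_)
        show ⟪b 0, (fourier (-0) θ : ℂ) • evG 𝒜 U θ (A i) (b 0)⟫_ℂ = _
        rw [neg_zero, fourier_zero, one_smul]
      rw [h5]
      exact Complex.ext (hre i) (him i)
    simp_rw [h4] at h2
    rw [h3] at h2
    exact (tendsto_nhds_unique h2 tendsto_const_nhds)
  have hall : ∀ n, cn n = 0 := by
    intro n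
    by_cases hn0 : n = 0
    · rw [hn0, h0]
    · exact hn n hn0
  -- zeta vanishes
  have hz0 : ζ =ᵐ[AddCircle.haarAddCircle] 0 := by
    set Z : Lp ℂ 2 (AddCircle.haarAddCircle : Measure UnitAddCircle) := hζL.toLp ζ with hZ
    have hZa : Z =ᵐ[AddCircle.haarAddCircle] ζ := hζL.coeFn_toLp
    have h1 : ∀ n, fourierCoeff (Z : UnitAddCircle → ℂ) n = 0 := by
      intro n
      rw [fourierCoeff]
      rw [← hall n, hcn]
      refine integral_congr_ae ?_
      filter_upwards [hZa] with θ h1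
      rw [h1]
    have h2 := tsum_sq_fourierCoeff Z
    simp_rw [h1] at h2
    simp only [norm_zero, ne_eq, OfNat.ofNat_ne_zero, not_false_eq_true, zero_pow, tsum_zero] at h2
    have h3 : ∫ θ, ‖ζ θ‖ ^ 2 ∂AddCircle.haarAddCircle = 0 := by
      rw [h2]
      refine integral_congr_ae ?_
      filter_upwards [hZa] with θ h1
      rw [h1]
    have h4 := (integral_eq_zero_iff_of_nonneg (fun θ => sq_nonneg (‖ζ θ‖))
      (hζL.integrable_norm_pow (by norm_num))).mp h3
    filter_upwards [h4] with θ h1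
    simpa using h1
  have hy0 : ∀ᵐ θ ∂AddCircle.haarAddCircle, Y 0 θ = 0 := by
    filter_upwards [hs, hz0] with θ h1 h2
    rw [h1 0, h2, Pi.zero_apply, zero_smul]
  have hfin : ∀ i, c ≤ ∫ θ, ‖evG 𝒜 U θ (A i) (b 0) - Y 0 θ‖ ^ 2 ∂AddCircle.haarAddCircle := by
    intro i
    refine (hc i).trans (le_of_eq (integral_congr_ae ?_))
    filter_upwards [hy0] with θ h
    rw [h, sub_zero]
  have : c ≤ 0 := ge_of_tendsto' (hlim 0) hfin
  linarith

end Pool.Agent.H712R5.BG
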