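import Pool.Agent.H712R5.BG.Stmts

set_option autoImplicit false
open scoped ComplexConjugate InnerProductSpace Topology
open Filter MeasureTheory NormedSpace

namespace Pool.Agent.H712R5.BG
open Pool.Agent.H712R5.BO

theorem t_E2 : P_E2 := by
  intro H _ _ _ 𝒜 U v A
  have key : ∀ θ : UnitAddCircle, ⟪v, evG 𝒜 U θ (star A * A) v⟫_ℂ
      = ((‖evG 𝒜 U θ A v‖ ^ 2 : ℝ) : ℂ) := by
    intro θ
    rw [map_mul, map_star]
    show ⟪v, (star (evG 𝒜 U θ A)) ((evG 𝒜 U θ A) v)⟫_ℂ = _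
    rw [ContinuousLinearMap.star_eq_adjoint,
      ContinuousLinearMap.adjoint_inner_right, inner_self_eq_norm_sq_to_K]
    push_cast
    rfl
  have h1 : tauG 𝒜 U v (star A * A)
      = ((∫ θ, ‖evG 𝒜 U θ A v‖ ^ 2 ∂AddCircle.haarAddCircle : ℝ) : ℂ) := by
    rw [tauG_apply]
    rw [integral_congr_ae (Eventually.of_forall key)]
    exact integral_ofReal
  unfold n2
  rw [h1, Complex.ofReal_re, Real.sq_sqrt]
  exact integral_nonneg (fun θ => by positivity)

end Pool.Agent.H712R5.BG
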