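import Pool.Agent.H712R5.BG.Stmts

set_option autoImplicit false
open scoped ComplexConjugate InnerProductSpace Topology
open Filter MeasureTheory NormedSpace

namespace Pool.Agent.H712R5.BG
open Pool.Agent.H712R5.BO

section C3

variable {H : Type} [NormedAddCommGroup H] [InnerProductSpace ℂ H] [CompleteSpace H]

/-- rotation of the circle -/
noncomputable def E3_rho (𝒜 : StarSubalgebra ℂ (H →L[ℂ] H)) (U : unitary (H →L[ℂ] H))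
    (hR : ∀ A ∈ Gen 𝒜 U, ∀ s : UnitAddCircle, rot s A ∈ Gen 𝒜 U) (s : UnitAddCircle) :
    Gen 𝒜 U →⋆ₐ[ℂ] Gen 𝒜 U where
  toFun := fun A => ⟨rot s (A : C(UnitAddCircle, H →L[ℂ] H)), hR A.1 A.2 s⟩
  map_one' := rfl
  map_mul' := fun _ _ => rfl
  map_zero' := rfl
  map_add' := fun _ _ => rfl
  commutes' := fun _ => rfl
  map_star' := fun _ => rfl

theorem E3_ev (𝒜 : StarSubalgebra ℂ (H →L[ℂ] H)) (U : unitary (H →L[ℂ] H))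
    (hR : ∀ A ∈ Gen 𝒜 U, ∀ s : UnitAddCircle, rot s A ∈ Gen 𝒜 U) (s θ : UnitAddCircle) (A : Gen 𝒜 U) :
    evG 𝒜 U θ (E3_rho 𝒜 U hR s A) = evG 𝒜 U (θ + s) A := rfl

theorem E3_cont (𝒜 : StarSubalgebra ℂ (H →L[ℂ] H)) (U : unitary (H →L[ℂ] H))
    (hR : ∀ A ∈ Gen 𝒜 U, ∀ s : UnitAddCircle, rot s A ∈ Gen 𝒜 U) (s : UnitAddCircle) :
    Continuous (E3_rho 𝒜 U hR s) := by
  refine AddMonoidHomClass.continuous_of_bound (E3_rho 𝒜 U hR s) 1 fun A => ?_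
  rw [one_mul]
  show ‖((E3_rho 𝒜 U hR s A : Gen 𝒜 U) : C(UnitAddCircle, H →L[ℂ] H))‖ ≤
    ‖(A : C(UnitAddCircle, H →L[ℂ] H))‖
  rw [ContinuousMap.norm_le _ (norm_nonneg _)]
  intro θ
  exact (A : C(UnitAddCircle, H →L[ℂ] H)).norm_coe_le_norm (θ + s)

theorem E3_tau (𝒜 : StarSubalgebra ℂ (H →L[ℂ] H)) (U : unitary (H →L[ℂ] H))
    (hR : ∀ A ∈ Gen 𝒜 U, ∀ s : UnitAddCircle, rot s A ∈ Gen 𝒜 U) (s : UnitAddCircle) (v : H) (A : Gen 𝒜 U) :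
    tauG 𝒜 U v (E3_rho 𝒜 U hR s A) = tauG 𝒜 U v A := by
  rw [tauG_apply, tauG_apply]
  simp only [E3_ev]
  exact integral_add_right_eq_self (μ := AddCircle.haarAddCircle)
    (fun θ => ⟪v, evG 𝒜 U θ A v⟫_ℂ) s

theorem E3_n2 (𝒜 : StarSubalgebra ℂ (H →L[ℂ] H)) (U : unitary (H →L[ℂ] H))
    (hR : ∀ A ∈ Gen 𝒜 U, ∀ s : UnitAddCircle, rot s A ∈ Gen 𝒜 U) (s : UnitAddCircle) (v : H) (A : Gen 𝒜 U) :
    n2 (tauG 𝒜 U v) (E3_rho 𝒜 U hR s A) = n2 (tauG 𝒜 U v) A := by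
  unfold n2
  rw [← map_star, ← map_mul, E3_tau]

theorem E3_Tt (𝒜 : StarSubalgebra ℂ (H →L[ℂ] H)) (U : unitary (H →L[ℂ] H))
    (hR : ∀ A ∈ Gen 𝒜 U, ∀ s : UnitAddCircle, rot s A ∈ Gen 𝒜 U) (s : UnitAddCircle) (T : H →L[ℂ] H)
    (hT : gen T 1 ∈ Gen 𝒜 U) :
    E3_rho 𝒜 U hR s (TG 𝒜 U T hT) = (fourier 1 s : ℂ) • TG 𝒜 U T hT := by
  apply Subtype.ext
  apply ContinuousMap.ext
  intro θ
  show (fourier 1 (θ + s) : ℂ) • T = (fourier 1 s : ℂ) • ((fourier 1 θ : ℂ) • T)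
  rw [smul_smul]
  congr 1
  simp only [fourier_apply, one_smul, AddCircle.toCircle_add, Circle.coe_mul]
  ring

theorem E3_rt (M j : ℕ) :
    (fourier 1 (((j : ℝ) / (M : ℝ) : ℝ) : UnitAddCircle) : ℂ) = rt M j := by
  rw [fourier_coe_apply]
  unfold rt
  congr 1
  push_cast
  ring

theorem E3_log (𝒜 : StarSubalgebra ℂ (H →L[ℂ] H)) (U : unitary (H →L[ℂ] H))
    (hR : ∀ A ∈ Gen 𝒜 U, ∀ s : UnitAddCircle, rot s A ∈ Gen 𝒜 U) (s : UnitAddCircle) (S : Gen 𝒜 U) (hS : IsUnit S) :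
    E3_rho 𝒜 U hR s (Lg S) = Lg (E3_rho 𝒜 U hR s S) := by
  unfold Lg CFC.log
  rw [← map_star, ← map_mul]
  have hu : IsUnit (star S * S) := hS.star.mul hS
  have hsa : IsSelfAdjoint (star S * S) := IsSelfAdjoint.star_mul_self S
  refine StarAlgHomClass.map_cfc (S := ℂ) (E3_rho 𝒜 U hR s) Real.log (star S * S) ?_
    (E3_cont 𝒜 U hR s) hsa (hsa.map _)
  refine Real.continuousOn_log.mono ?_
  intro x hx h0
  rw [Set.mem_singleton_iff] at h0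
  subst h0
  exact spectrum.zero_notMem ℝ hu hx

/-- C3: rotation invariance of `NN (exp(k z T))` -/
theorem t_E3 : P_E3 := by
  intro H _ _ _ 𝒜 U hR v T hT k M j
  letI : NormedAlgebra ℚ (Gen 𝒜 U) := NormedAlgebra.restrictScalars ℚ ℂ (Gen 𝒜 U)
  have h1 : ex (k * rt M j) (TG 𝒜 U T hT) =
      E3_rho 𝒜 U hR (((j : ℝ) / (M : ℝ) : ℝ) : UnitAddCircle) (ex (k : ℂ) (TG 𝒜 U T hT)) := by
    unfold ex
    rw [map_exp (E3_rho 𝒜 U hR (((j : ℝ) / (M : ℝ) : ℝ) : UnitAddCircle)) (E3_cont 𝒜 U hR _), map_smul,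
      E3_Tt, E3_rt, smul_smul]
  unfold NN
  rw [h1, ← E3_log 𝒜 U hR _ _ (by unfold ex; exact isUnit_exp _), E3_n2]

end C3

end Pool.Agent.H712R5.BG
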