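import Pool.Agent.H712R5.BG.Stmts

set_option autoImplicit false
open scoped ComplexConjugate InnerProductSpace Topology
open Filter MeasureTheory NormedSpace

namespace Pool.Agent.H712R5.BG
open Pool.Agent.H712R5.BO

section E7

variable {H : Type} [NormedAddCommGroup H] [InnerProductSpace ℂ H] [CompleteSpace H]

/-- rotation of the circle, as a homomorphism -/
noncomputable def E7_rho (s : UnitAddCircle) :
    C(UnitAddCircle, H →L[ℂ] H) →⋆ₐ[ℂ] C(UnitAddCircle, H →L[ℂ] H) where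
  toFun := fun A => rot s A
  map_one' := rfl
  map_mul' := fun _ _ => rfl
  map_zero' := rfl
  map_add' := fun _ _ => rfl
  commutes' := fun _ => rfl
  map_star' := fun _ => rfl

theorem E7_cont (s : UnitAddCircle) :
    Continuous (E7_rho s : C(UnitAddCircle, H →L[ℂ] H) → C(UnitAddCircle, H →L[ℂ] H)) := by
  refine AddMonoidHomClass.continuous_of_bound (E7_rho s) 1 fun A => ?_
  rw [one_mul, ContinuousMap.norm_le _ (norm_nonneg _)]
  intro θ
  exact A.norm_coe_le_norm (θ + s)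

theorem E7_gen (s : UnitAddCircle) (a : H →L[ℂ] H) (n : ℤ) :
    rot s (gen a n) = (fourier n s : ℂ) • gen a n := by
  apply ContinuousMap.ext
  intro θ
  show (fourier n (θ + s) : ℂ) • a = (fourier n s : ℂ) • ((fourier n θ : ℂ) • a)
  rw [smul_smul]
  congr 1
  simp only [fourier_apply, smul_add, AddCircle.toCircle_add, Circle.coe_mul]
  ring

end E7

/-- E7: `Gen` is rotation invariant -/
theorem t_E7 : P_E7 := by
  intro H _ _ _ 𝒜 U A hA s
  have h1 : StarAlgebra.adjoin ℂ (gset 𝒜 U) ≤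
      (StarAlgebra.adjoin ℂ (gset 𝒜 U)).comap (E7_rho s) := by
    refine StarAlgebra.adjoin_le ?_
    rintro B ⟨a, ha, n, rfl⟩
    show rot s _ ∈ StarAlgebra.adjoin ℂ (gset 𝒜 U)
    rw [E7_gen]
    exact (StarAlgebra.adjoin ℂ (gset 𝒜 U)).smul_mem
      (StarAlgebra.subset_adjoin ℂ _ ⟨a, ha, n, rfl⟩) _
  have hA' : A ∈ closure ((StarAlgebra.adjoin ℂ (gset 𝒜 U) :
      StarSubalgebra ℂ C(UnitAddCircle, H →L[ℂ] H)) : Set C(UnitAddCircle, H →L[ℂ] H)) := hA
  exact map_mem_closure (E7_cont s) hA' (fun B hB => h1 hB)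

end Pool.Agent.H712R5.BG
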