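import Pool.Agent.H712R5.BG.Stmts

/-!
Bishop operators over arbitrary measure preserving maps: task E8, right multiplication bound.
-/

set_option autoImplicit false
open scoped ComplexConjugate InnerProductSpace Topology
open Filter MeasureTheory NormedSpace

namespace Pool.Agent.H712R5.BG
open Pool.Agent.H712R5.BO

variable {H : Type} [NormedAddCommGroup H] [InnerProductSpace ℂ H] [CompleteSpace H]

theorem E8_mem (𝒜 : StarSubalgebra ℂ (H →L[ℂ] H)) (U : unitary (H →L[ℂ] H)) (m : H →L[ℂ] H)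
    (hm : m ∈ 𝒜) : gen m 0 ∈ Gen 𝒜 U := by
  unfold Gen
  apply StarSubalgebra.le_topologicalClosure
  apply StarAlgebra.subset_adjoin
  refine ⟨m, hm, 0, ?_⟩
  rw [zpow_zero]
  simp

theorem E8_ev (𝒜 : StarSubalgebra ℂ (H →L[ℂ] H)) (U : unitary (H →L[ℂ] H)) (m : H →L[ℂ] H)
    (hm : gen m 0 ∈ Gen 𝒜 U) (θ : UnitAddCircle) : evG 𝒜 U θ ⟨gen m 0, hm⟩ = m := by
  rw [evG_apply]
  show (fourier 0 θ : ℂ) • m = m
  rw [fourier_zero, one_smul]

theorem E8_int (𝒜 : StarSubalgebra ℂ (H →L[ℂ] H)) (U : unitary (H →L[ℂ] H)) (v : H)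
    (A : Gen 𝒜 U) :
    Integrable (fun θ => ‖evG 𝒜 U θ A v‖ ^ 2) AddCircle.haarAddCircle := by
  have hc : Continuous (fun θ => ‖evG 𝒜 U θ A v‖ ^ 2) :=
    (((continuous_evG 𝒜 U A).clm_apply continuous_const).norm).pow 2
  exact hc.integrable_of_hasCompactSupport (HasCompactSupport.of_compactSpace _)

theorem E8_sq {A : Type} [CStarAlgebra A] {τ : A →L[ℂ] ℂ} (h : TrSt τ) (a : A) :
    n2 τ a ^ 2 = (τ (star a * a)).re := by
  unfold n2
  exact Real.sq_sqrt (h.pos a)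

theorem E8_star {A : Type} [CStarAlgebra A] {τ : A →L[ℂ] ℂ} (h : TrSt τ) (a : A) :
    n2 τ (star a) ^ 2 = n2 τ a ^ 2 := by
  rw [E8_sq h, E8_sq h, star_star, h.tr]

theorem t_E8 (h1 : P_E1) (h2 : P_E2) : P_E8 := by
  intro H _ _ _ 𝒜 U e hG A m hm
  have hT := h1 H 𝒜 U e hG
  have hmem := E8_mem 𝒜 U m hm
  set Mg : Gen 𝒜 U := ⟨gen m 0, hmem⟩ with hMg
  have hev : ∀ θ, evG 𝒜 U θ Mg = m := fun θ => E8_ev 𝒜 U m hmem θ
  have e1 : ∫ θ, ‖evG 𝒜 U θ A (m e)‖ ^ 2 ∂AddCircle.haarAddCircle =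
      n2 (tauG 𝒜 U e) (A * Mg) ^ 2 := by
    rw [h2]
    refine integral_congr_ae (Eventually.of_forall fun θ => ?_)
    simp only
    rw [map_mul, hev]
    rfl
  rw [e1, ← E8_star hT, h2, ← E8_star hT A, h2 H 𝒜 U e (star A), ← integral_const_mul]
  refine integral_mono (E8_int 𝒜 U e _) ((E8_int 𝒜 U e _).const_mul _) fun θ => ?_
  simp only
  have e2 : evG 𝒜 U θ (star (A * Mg)) e = star m (evG 𝒜 U θ (star A) e) := by
    rw [star_mul, map_mul, map_star, hev]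
    rfl
  rw [e2, ← mul_pow]
  refine pow_le_pow_left₀ (norm_nonneg _) ?_ 2
  refine ((star m).le_opNorm _).trans ?_
  rw [norm_star]

end Pool.Agent.H712R5.BG
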