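import Pool.Agent.H712R5.BG.Stmts

set_option autoImplicit false
open scoped ComplexConjugate InnerProductSpace Topology
open Filter MeasureTheory NormedSpace

namespace Pool.Agent.H712R5.BG
open Pool.Agent.H712R5.BO

section
variable {H : Type} [NormedAddCommGroup H] [InnerProductSpace ℂ H] [CompleteSpace H]

theorem E9_mem (u : UnitAddCircle → H) (hu : Continuous u) :
    MemLp u 2 AddCircle.haarAddCircle := by
  have h1 : Integrable u AddCircle.haarAddCircle :=
    hu.integrable_of_hasCompactSupport (HasCompactSupport.of_compactSpace _)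
  refine (memLp_two_iff_integrable_sq_norm h1.aestronglyMeasurable).2 ?_
  have h2 : Continuous (fun θ => ‖u θ‖ ^ 2) := hu.norm.pow 2
  exact h2.integrable_of_hasCompactSupport (HasCompactSupport.of_compactSpace _)

theorem E9_int (u v : UnitAddCircle → H) (hu : MemLp u 2 AddCircle.haarAddCircle)
    (hv : MemLp v 2 AddCircle.haarAddCircle) :
    Integrable (fun θ => ‖u θ - v θ‖ ^ 2) AddCircle.haarAddCircle :=
  (memLp_two_iff_integrable_sq_norm (hu.sub hv).aestronglyMeasurable).1 (hu.sub hv)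

theorem E9_tri (u v w : UnitAddCircle → H) (hu : MemLp u 2 AddCircle.haarAddCircle)
    (hv : MemLp v 2 AddCircle.haarAddCircle) (hw : MemLp w 2 AddCircle.haarAddCircle) :
    ∫ θ, ‖u θ - w θ‖ ^ 2 ∂AddCircle.haarAddCircle ≤
      2 * (∫ θ, ‖u θ - v θ‖ ^ 2 ∂AddCircle.haarAddCircle) +
      2 * (∫ θ, ‖v θ - w θ‖ ^ 2 ∂AddCircle.haarAddCircle) := by
  rw [← integral_const_mul, ← integral_const_mul,
    ← integral_add ((E9_int u v hu hv).const_mul 2) ((E9_int v w hv hw).const_mul 2)]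
  refine integral_mono (E9_int u w hu hw)
    (((E9_int u v hu hv).const_mul 2).add ((E9_int v w hv hw).const_mul 2)) (fun θ => ?_)
  show ‖u θ - w θ‖ ^ 2 ≤ 2 * ‖u θ - v θ‖ ^ 2 + 2 * ‖v θ - w θ‖ ^ 2
  have h1 : ‖u θ - w θ‖ ≤ ‖u θ - v θ‖ + ‖v θ - w θ‖ := norm_sub_le_norm_sub_add_norm_sub _ _ _
  have h2 := norm_nonneg (u θ - w θ)
  nlinarith [sq_nonneg (‖u θ - v θ‖ - ‖v θ - w θ‖), mul_self_le_mul_self h2 h1]

theorem E9_ae (F : ℕ → UnitAddCircle → ℝ) (hF : ∀ i, Integrable (F i) AddCircle.haarAddCircle)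
    (hF0 : ∀ i θ, 0 ≤ F i θ) (N : ℕ)
    (hb : ∀ i ≥ N, ∫ θ, F i θ ∂AddCircle.haarAddCircle ≤ (1 / 4 : ℝ) ^ i) :
    ∀ᵐ θ ∂AddCircle.haarAddCircle, Tendsto (fun i => F i θ) atTop (𝓝 0) := by
  have hs : Summable (fun i : ℕ => (1 / 4 : ℝ) ^ i) :=
    summable_geometric_of_lt_one (by norm_num) (by norm_num)
  have h1 : ∫⁻ θ, ∑' i, ENNReal.ofReal (F (i + N) θ) ∂AddCircle.haarAddCircle ≠ ⊤ := by
    rw [lintegral_tsum (fun i => ((hF (i + N)).aestronglyMeasurable.aemeasurable).ennreal_ofReal)]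
    have h2 : ∀ i, ∫⁻ θ, ENNReal.ofReal (F (i + N) θ) ∂AddCircle.haarAddCircle ≤
        ENNReal.ofReal ((1 / 4 : ℝ) ^ i) := by
      intro i
      rw [← ofReal_integral_eq_lintegral_ofReal (hF (i + N))
        (Eventually.of_forall (hF0 (i + N)))]
      refine ENNReal.ofReal_le_ofReal ((hb (i + N) (by omega)).trans ?_)
      exact pow_le_pow_of_le_one (by norm_num) (by norm_num) (by omega)
    refine ne_top_of_le_ne_top ?_ (ENNReal.tsum_le_tsum h2)
    rw [← ENNReal.ofReal_tsum_of_nonneg (fun i => by positivity) hs]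
    exact ENNReal.ofReal_ne_top
  have hm : AEMeasurable (fun θ => ∑' i, ENNReal.ofReal (F (i + N) θ))
      AddCircle.haarAddCircle :=
    AEMeasurable.tsum
      (fun i => ((hF (i + N)).aestronglyMeasurable.aemeasurable).ennreal_ofReal)
  have h3 := ae_lt_top' hm h1
  filter_upwards [h3] with θ hθ
  have h4 := ENNReal.tendsto_atTop_zero_of_tsum_ne_top hθ.ne
  have h5 : Tendsto (fun i => F (i + N) θ) atTop (𝓝 0) := by
    have h6 := (ENNReal.tendsto_toReal ENNReal.zero_ne_top).comp h4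
    simp only [ENNReal.toReal_zero] at h6
    refine h6.congr (fun i => ?_)
    simp only [Function.comp]
    exact ENNReal.toReal_ofReal (hF0 _ _)
  exact (tendsto_add_atTop_iff_nat N).1 h5

end

theorem t_E9 (h : P_C7) : P_E9 := by
  intro H _ _ _ y hy hC
  have h1 := fun r => h H (y r) (hy r) (hC r)
  choose ψ Y hψ hY _ hL using h1
  have hfull : ∀ r, Tendsto (fun k => ∫ θ, ‖y r k θ - Y r θ‖ ^ 2 ∂AddCircle.haarAddCircle)
      atTop (𝓝 0) := by
    intro r
    rw [Metric.tendsto_atTop]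
    intro ε hε
    obtain ⟨K, hK⟩ := hC r (ε / 4) (by linarith)
    obtain ⟨I, hI⟩ := (Metric.tendsto_atTop.1 (hL r)) (ε / 4) (by linarith)
    refine ⟨K, fun k hk => ?_⟩
    have h2 := hK k hk (ψ r (max I K)) ((le_max_right I K).trans ((hψ r).id_le _))
    have h3 := hI (max I K) (le_max_left _ _)
    rw [Real.dist_eq, sub_zero] at h3
    have h4 := (abs_lt.1 h3).2
    have h5 := E9_tri (y r k) (y r (ψ r (max I K))) (Y r) (E9_mem _ (hy r k))
      (E9_mem _ (hy r _)) (hY r)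
    have h6 : 0 ≤ ∫ θ, ‖y r k θ - Y r θ‖ ^ 2 ∂AddCircle.haarAddCircle :=
      integral_nonneg (fun θ => by positivity)
    rw [Real.dist_eq, sub_zero, abs_of_nonneg h6]
    linarith
  have hev : ∀ i : ℕ, ∀ᶠ k in atTop, ∀ r ∈ Finset.Icc (-(i:ℤ)) i,
      ∫ θ, ‖y r k θ - Y r θ‖ ^ 2 ∂AddCircle.haarAddCircle ≤ (1 / 4 : ℝ) ^ i := by
    intro i
    rw [Finset.eventually_all]
    intro r _
    have := (hfull r).eventually (gt_mem_nhds (show (0:ℝ) < (1 / 4 : ℝ) ^ i by positivity))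
    exact this.mono (fun k hk => hk.le)
  obtain ⟨φ, hφ, hφ2⟩ := extraction_forall_of_eventually' (fun i => eventually_atTop.1 (hev i))
  refine ⟨φ, Y, hφ, hY, ?_, fun r => (hfull r).comp hφ.tendsto_atTop⟩
  rw [ae_all_iff]
  intro r
  have h7 := E9_ae (fun i θ => ‖y r (φ i) θ - Y r θ‖ ^ 2)
    (fun i => E9_int _ _ (E9_mem _ (hy r _)) (hY r)) (fun i θ => by positivity) r.natAbs
    (fun i hi => hφ2 i r (by rw [Finset.mem_Icc]; omega))
  filter_upwards [h7] with θ hθ
  rw [tendsto_iff_norm_sub_tendsto_zero]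
  have h8 := (Real.continuous_sqrt.tendsto 0).comp hθ
  rw [Real.sqrt_zero] at h8
  refine h8.congr (fun i => ?_)
  simp only [Function.comp]
  exact Real.sqrt_sq (norm_nonneg _)

end Pool.Agent.H712R5.BG
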