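import Pool.Agent.H712R5.BG.Stmts
set_option autoImplicit false
open scoped ComplexConjugate InnerProductSpace Topology
open Filter MeasureTheory NormedSpace
namespace Pool.Agent.H712R5.BG
open Pool.Agent.H712R5.BO
variable {H : Type} [NormedAddCommGroup H] [InnerProductSpace ℂ H] [CompleteSpace H]

theorem EM_evsmul (𝒜 : StarSubalgebra ℂ (H →L[ℂ] H)) (U : unitary (H →L[ℂ] H)) (θ : UnitAddCircle) (r : ℝ)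
    (A : Gen 𝒜 U) : evG 𝒜 U θ (r • A) = r • evG 𝒜 U θ A := rfl

theorem EM_norm_Tt (𝒜 : StarSubalgebra ℂ (H →L[ℂ] H)) (U : unitary (H →L[ℂ] H)) (T : H →L[ℂ] H)
    (hT : gen T 1 ∈ Gen 𝒜 U) :
    ‖TG 𝒜 U T hT‖ ≤ ‖T‖ := by
  show ‖(TG 𝒜 U T hT : C(UnitAddCircle, H →L[ℂ] H))‖ ≤ ‖T‖
  rw [ContinuousMap.norm_le _ (norm_nonneg _)]
  intro θ
  have : (TG 𝒜 U T hT : C(UnitAddCircle, H →L[ℂ] H)) θ = (fourier 1 θ : ℂ) • T := rfl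
  rw [this, norm_smul]
  have h1 : ‖(fourier 1 θ : ℂ)‖ = 1 := by
    rw [fourier_apply]
    exact Circle.norm_coe _
  rw [h1, one_mul]

theorem EM_tr0 (hB13 : P_B13) (hE6 : P_E6) (𝒜 : StarSubalgebra ℂ (H →L[ℂ] H)) (U : unitary (H →L[ℂ] H)) (v : H)
    (hτ : TrSt (tauG 𝒜 U v)) (T : H →L[ℂ] H)
    (hT : gen T 1 ∈ Gen 𝒜 U) (k : ℕ) :
    (tauG 𝒜 U v (Lg (ex (k : ℂ) (TG 𝒜 U T hT)))).re = 0 := by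
  have h1 := hB13 (Gen 𝒜 U) (tauG 𝒜 U v) hτ ((k : ℂ) • (TG 𝒜 U T hT))
  have h3 : tauG 𝒜 U v ((k : ℂ) • (TG 𝒜 U T hT)) = 0 := by
    rw [map_smul, hE6 H 𝒜 U v T hT, smul_zero]
  rw [h3] at h1
  unfold ex
  rw [h1]; simp

theorem EM_ck_pos (k : ℕ) (hk : 1 ≤ k) : 0 < ck k := by
  unfold ck
  positivity

/-- hypothesis of D8 -/
theorem EM_low (hD7 : P_D7) (hE3 : P_E3) (hE5 : P_E5) (𝒜 : StarSubalgebra ℂ (H →L[ℂ] H)) (U : unitary (H →L[ℂ] H)) (v : H) (hτ : TrSt (tauG 𝒜 U v)) (T : H →L[ℂ] H)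
    (hT : gen T 1 ∈ Gen 𝒜 U) (hTn : ‖T‖ ≤ 3)
    (hR : ∀ A ∈ Gen 𝒜 U, ∀ s : UnitAddCircle, rot s A ∈ Gen 𝒜 U)
    (hdet : ∀ (k : ℕ) (δ : ℝ), 1 ≤ k → 0 < δ →
      0 ≤ (⟪v, CFC.log (algebraMap ℝ (H →L[ℂ] H) δ + star (T ^ k) * T ^ k) v⟫_ℂ).re)
    (k M : ℕ) (hk : 1 ≤ k) (hM : 1 ≤ M) :
    0 ≤ 2 * Real.log (ck k) + 4 * Real.pi * k * 3 / M + M * Real.log 2
        + M * NN (tauG 𝒜 U v) (ex (k : ℂ) (TG 𝒜 U T hT)) := by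
  have h1 := hD7 (Gen 𝒜 U) (tauG 𝒜 U v) hτ (TG 𝒜 U T hT) k M hk hM
  have hck := EM_ck_pos k hk
  have h2 := hE5 H 𝒜 U v T hT k ((ck k) ^ 2) (by positivity)
  have h3 := hdet k ((ck k) ^ 2) hk (by positivity)
  rw [h2] at h1
  have h4 : ∑ j : Fin M, NN (tauG 𝒜 U v) (ex (k * rt M j) (TG 𝒜 U T hT))
      = M * NN (tauG 𝒜 U v) (ex (k : ℂ) (TG 𝒜 U T hT)) := by
    have h7 : ∀ j : Fin M, NN (tauG 𝒜 U v) (ex (k * rt M j) (TG 𝒜 U T hT))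
      = NN (tauG 𝒜 U v) (ex (k : ℂ) (TG 𝒜 U T hT)) := fun j => hE3 H 𝒜 U hR v T hT k M j
    simp_rw [h7]
    simp
  rw [h4] at h1
  have h5 : ‖TG 𝒜 U T hT‖ ≤ 3 := (EM_norm_Tt 𝒜 U T hT).trans hTn
  have h6 : 4 * Real.pi * k * ‖TG 𝒜 U T hT‖ / M ≤ 4 * Real.pi * k * 3 / M := by
    have : (0:ℝ) < M := by exact_mod_cast hM
    gcongr
  linarith

/-- the elements `(1/k) log |exp (k T)|^2` -/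
noncomputable def AA (𝒜 : StarSubalgebra ℂ (H →L[ℂ] H)) (U : unitary (H →L[ℂ] H)) (S : Gen 𝒜 U)
    (k : ℕ) : Gen 𝒜 U := (1/(k:ℝ)) • Lg (ex (k : ℂ) S)

theorem EM_cauchy (hB12 : P_B12) (𝒜 : StarSubalgebra ℂ (H →L[ℂ] H)) (U : unitary (H →L[ℂ] H))
    (v : H) (hτ : TrSt (tauG 𝒜 U v)) (S : Gen 𝒜 U) :
    ∀ ε > (0:ℝ), ∃ K : ℕ, ∀ k ≥ K, ∀ m ≥ K,
      n2 (tauG 𝒜 U v) (AA 𝒜 U S k - AA 𝒜 U S m) < ε := by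
  intro ε hε
  obtain ⟨K', _, hK'⟩ := hB12 (Gen 𝒜 U) (tauG 𝒜 U v) hτ S ε hε
  exact ⟨K', fun k hk m hm => hK' k hk m hm⟩

theorem EM_re (hB13 : P_B13) (hE6 : P_E6) (𝒜 : StarSubalgebra ℂ (H →L[ℂ] H))
    (U : unitary (H →L[ℂ] H)) (v : H) (hτ : TrSt (tauG 𝒜 U v)) (T : H →L[ℂ] H)
    (hT : gen T 1 ∈ Gen 𝒜 U) (k : ℕ) :
    (tauG 𝒜 U v (AA 𝒜 U (TG 𝒜 U T hT) k)).re = 0 := by
  have h2 : tauG 𝒜 U v (AA 𝒜 U (TG 𝒜 U T hT) k)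
      = ((1/(k:ℝ) : ℝ) : ℂ) • tauG 𝒜 U v (Lg (ex (k : ℂ) (TG 𝒜 U T hT))) := by
    rw [← map_smul]
    rfl
  rw [h2, smul_eq_mul, Complex.re_ofReal_mul, EM_tr0 hB13 hE6 𝒜 U v hτ T hT k, mul_zero]

theorem EM_im (hB4v : P_B4v) (𝒜 : StarSubalgebra ℂ (H →L[ℂ] H)) (U : unitary (H →L[ℂ] H)) (v : H)
    (hτ : TrSt (tauG 𝒜 U v)) (S : Gen 𝒜 U) (k : ℕ) :
    (tauG 𝒜 U v (AA 𝒜 U S k)).im = 0 := by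
  have hsa : IsSelfAdjoint (Lg (ex (k : ℂ) S)) := (hB4v (Gen 𝒜 U)).1 _
  have h1 := hτ.herm (Lg (ex (k : ℂ) S))
  rw [hsa.star_eq] at h1
  have h4 := Complex.conj_eq_iff_im.mp h1.symm
  have h2 : tauG 𝒜 U v (AA 𝒜 U S k)
      = ((1/(k:ℝ) : ℝ) : ℂ) • tauG 𝒜 U v (Lg (ex (k : ℂ) S)) := by
    rw [← map_smul]
    rfl
  rw [h2, smul_eq_mul, Complex.im_ofReal_mul, h4, mul_zero]

theorem EM_lowb (hE2 : P_E2) (hB1 : P_B1) (𝒜 : StarSubalgebra ℂ (H →L[ℂ] H))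
    (U : unitary (H →L[ℂ] H)) (v : H)
    (hτ : TrSt (tauG 𝒜 U v)) (S : Gen 𝒜 U) (c : ℝ) (hc : 0 < c) (k : ℕ) (hk1 : 1 ≤ k)
    (hk : c * k ≤ NN (tauG 𝒜 U v) (ex (k : ℂ) S)) :
    c ^ 2 ≤ ∫ θ, ‖evG 𝒜 U θ (AA 𝒜 U S k) v‖ ^ 2 ∂AddCircle.haarAddCircle := by
  rw [← hE2 H 𝒜 U v (AA 𝒜 U S k)]
  have h1 : c ≤ n2 (tauG 𝒜 U v) (AA 𝒜 U S k) := by
    have h3 : n2 (tauG 𝒜 U v) ((1/(k:ℝ)) • Lg (ex (k : ℂ) S))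
        = |(1/(k:ℝ))| * NN (tauG 𝒜 U v) (ex (k : ℂ) S) :=
      (hB1 (Gen 𝒜 U) (tauG 𝒜 U v) hτ).2.2.2.1 _ _
    unfold AA
    rw [h3]
    have h4 : (0:ℝ) < k := by exact_mod_cast hk1
    rw [abs_of_pos (by positivity)]
    calc c = 1 / (k : ℝ) * (c * k) := by field_simp
      _ ≤ _ := by gcongr
  gcongr

theorem EM_ev (hE4 : P_E4) (𝒜 : StarSubalgebra ℂ (H →L[ℂ] H)) (U : unitary (H →L[ℂ] H))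
    (T : H →L[ℂ] H) (hT : gen T 1 ∈ Gen 𝒜 U) (k : ℕ) (hk : 1 ≤ k) (θ : UnitAddCircle) :
    evG 𝒜 U θ (AA 𝒜 U (TG 𝒜 U T hT) k)
      = (1/(k:ℝ)) • Lg (ex (k : ℂ) ((fourier 1 θ : ℂ) • T)) ∧
    ‖evG 𝒜 U θ (AA 𝒜 U (TG 𝒜 U T hT) k)‖ ≤ 2 * ‖T‖ := by
  have h0 : evG 𝒜 U θ (AA 𝒜 U (TG 𝒜 U T hT) k)
      = (1/(k:ℝ)) • Lg (ex (k : ℂ) ((fourier 1 θ : ℂ) • T)) := by
    unfold AA
    rw [EM_evsmul, (hE4 H 𝒜 U T hT k θ).1]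
  refine ⟨h0, ?_⟩
  rw [h0, norm_smul]
  have h1 := (hE4 H 𝒜 U T hT k θ).2
  have h4 : (0:ℝ) < k := by exact_mod_cast hk
  rw [Real.norm_eq_abs, abs_of_pos (by positivity)]
  calc 1 / (k : ℝ) * _ ≤ 1 / (k : ℝ) * (2 * k * ‖T‖) := by gcongr
    _ = 2 * ‖T‖ := by field_simp

theorem EM_cauchy_r (hE8 : P_E8) (𝒜 : StarSubalgebra ℂ (H →L[ℂ] H)) (U : unitary (H →L[ℂ] H))
    (e : H) (hG : GD 𝒜 U e) (m : H →L[ℂ] H) (hm : m ∈ 𝒜) (A : ℕ → Gen 𝒜 U)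
    (hA : ∀ ε > (0:ℝ), ∃ K : ℕ, ∀ k ≥ K, ∀ l ≥ K, n2 (tauG 𝒜 U e) (A k - A l) < ε) :
    ∀ ε > (0:ℝ), ∃ K : ℕ, ∀ k ≥ K, ∀ l ≥ K,
      ∫ θ, ‖evG 𝒜 U θ (A k) (m e) - evG 𝒜 U θ (A l) (m e)‖ ^ 2 ∂AddCircle.haarAddCircle < ε := by
  intro ε hε
  have hp : (0:ℝ) < ‖m‖ ^ 2 + 1 := by positivity
  obtain ⟨K, hK⟩ := hA (Real.sqrt (ε / (‖m‖ ^ 2 + 1))) (Real.sqrt_pos.mpr (by positivity))
  refine ⟨K, fun k hk l hl => ?_⟩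
  have h1 := hE8 H 𝒜 U e hG (A k - A l) m hm
  have h2 : ∫ θ, ‖evG 𝒜 U θ (A k) (m e) - evG 𝒜 U θ (A l) (m e)‖ ^ 2 ∂AddCircle.haarAddCircle
      = ∫ θ, ‖evG 𝒜 U θ (A k - A l) (m e)‖ ^ 2 ∂AddCircle.haarAddCircle := by
    refine integral_congr_ae (Eventually.of_forall (fun θ => ?_))
    show ‖evG 𝒜 U θ (A k) (m e) - evG 𝒜 U θ (A l) (m e)‖ ^ 2
      = ‖evG 𝒜 U θ (A k - A l) (m e)‖ ^ 2
    rw [map_sub]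
    rfl
  rw [h2]
  refine lt_of_le_of_lt h1 ?_
  have h3 := hK k hk l hl
  have h0 : 0 ≤ n2 (tauG 𝒜 U e) (A k - A l) := Real.sqrt_nonneg _
  have h4 : (n2 (tauG 𝒜 U e) (A k - A l)) ^ 2 < ε / (‖m‖ ^ 2 + 1) := by
    calc _ < (Real.sqrt (ε / (‖m‖ ^ 2 + 1))) ^ 2 := by gcongr
      _ = ε / (‖m‖ ^ 2 + 1) := Real.sq_sqrt (by positivity)
  calc ‖m‖ ^ 2 * (n2 (tauG 𝒜 U e) (A k - A l)) ^ 2
      ≤ (‖m‖ ^ 2 + 1) * (n2 (tauG 𝒜 U e) (A k - A l)) ^ 2 := by gcongr; linarith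
    _ < (‖m‖ ^ 2 + 1) * (ε / (‖m‖ ^ 2 + 1)) := by gcongr
    _ = ε := by field_simp

theorem EM_lim (hE8 : P_E8) (hE9 : P_E9) (hE11 : P_E11) (𝒜 : StarSubalgebra ℂ (H →L[ℂ] H))
    (U : unitary (H →L[ℂ] H)) (b : HilbertBasis ℤ ℂ H)
    (m : ℤ → (H →L[ℂ] H)) (hG : GD 𝒜 U (b 0)) (hm : ∀ r, m r ∈ 𝒜 ∧ m r (b 0) = b r)
    (hU : ∀ n : ℤ, n ≠ 0 → U ^ n ≠ 1) (A : ℕ → Gen 𝒜 U)
    (hA : ∀ ε > (0:ℝ), ∃ K : ℕ, ∀ k ≥ K, ∀ l ≥ K, n2 (tauG 𝒜 U (b 0)) (A k - A l) < ε)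
    (hre : ∀ i, (tauG 𝒜 U (b 0) (A i)).re = 0) (him : ∀ i, (tauG 𝒜 U (b 0) (A i)).im = 0)
    (c : ℝ) (hc : 0 < c) (K : ℕ)
    (hlow : ∀ k, 1 ≤ k → K ≤ k →
      c ^ 2 ≤ ∫ θ, ‖evG 𝒜 U θ (A k) (b 0)‖ ^ 2 ∂AddCircle.haarAddCircle) :
    ∃ (ψ : ℕ → ℕ) (θ : UnitAddCircle) (w : ℤ → H), StrictMono ψ ∧ (∀ i, 1 ≤ ψ i) ∧
      (∀ r, Tendsto (fun i => evG 𝒜 U θ (A (ψ i)) (b r)) atTop (𝓝 (w r))) ∧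
      ¬ ∃ z : ℂ, ∀ r, w r = z • b r := by
  have hcau : ∀ r, ∀ ε > (0:ℝ), ∃ K : ℕ, ∀ k ≥ K, ∀ l ≥ K,
      ∫ θ, ‖evG 𝒜 U θ (A k) (b r) - evG 𝒜 U θ (A l) (b r)‖ ^ 2 ∂AddCircle.haarAddCircle < ε := by
    intro r
    have h1 := EM_cauchy_r hE8 𝒜 U (b 0) hG (m r) (hm r).1 A hA
    rw [(hm r).2] at h1
    exact h1
  obtain ⟨φ, Y, hφ, hYmem, hae, hL2⟩ := hE9 H (fun r k θ => evG 𝒜 U θ (A k) (b r))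
    (fun r k => (continuous_evG 𝒜 U (A k)).clm_apply continuous_const) hcau
  have hle : ∀ i, i + (K + 1) ≤ φ (i + (K + 1)) := fun i => hφ.le_apply
  have hnot := hE11 H 𝒜 U b m hG hm hU (fun i => A (φ (i + (K + 1)))) Y hYmem
    (fun r => (hL2 r).comp (tendsto_add_atTop_nat (K + 1)))
    (fun i => hre _) (fun i => him _)
    ⟨c ^ 2, by positivity, fun i => hlow _ (le_trans (by omega) (hle i))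
      (le_trans (by omega) (hle i))⟩
  obtain ⟨θ, hθ1, hθ2⟩ : ∃ θ : UnitAddCircle,
      (∀ r, Tendsto (fun i => evG 𝒜 U θ (A (φ i)) (b r)) atTop (𝓝 (Y r θ))) ∧
      ¬ ∃ z : ℂ, ∀ r, Y r θ = z • b r := by
    by_contra hcon
    push Not at hcon
    apply hnot
    filter_upwards [hae] with θ hθ
    exact hcon θ hθ
  exact ⟨fun i => φ (i + (K + 1)), θ, fun r => Y r θ, fun i j hij => hφ (by omega),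
    fun i => le_trans (by omega) (hle i),
    fun r => (hθ1 r).comp (tendsto_add_atTop_nat (K + 1)), hθ2⟩

theorem EM_mem (𝒜 : StarSubalgebra ℂ (H →L[ℂ] H)) (U : unitary (H →L[ℂ] H)) (w : H →L[ℂ] H)
    (hw : w ∈ 𝒜) : gen (w * (U : H →L[ℂ] H)) 1 ∈ Gen 𝒜 U := by
  refine StarSubalgebra.le_topologicalClosure _ (StarAlgebra.subset_adjoin ℂ _ ?_)
  exact ⟨w, hw, 1, by rw [zpow_one]⟩

theorem EM_scal (T : H →L[ℂ] H) (θ : UnitAddCircle) (V : Submodule ℂ H)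
    (hVi : ∀ v ∈ V, ((fourier 1 θ : ℂ) • T) v ∈ V) : ∀ v ∈ V, T v ∈ V := by
  intro v hv
  have h1 := V.smul_mem ((fourier 1 θ : ℂ)⁻¹) (hVi v hv)
  have h2 : (fourier 1 θ : ℂ) ≠ 0 := by
    have h3 : ‖(fourier 1 θ : ℂ)‖ = 1 := by
      rw [fourier_apply]
      exact Circle.norm_coe _
    intro h4
    rw [h4] at h3
    simp at h3
  have h5 : ((fourier 1 θ : ℂ)⁻¹) • (((fourier 1 θ : ℂ) • T) v) = T v := by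
    rw [_root_.smul_apply, smul_smul, inv_mul_cancel₀ h2, one_smul]
  rwa [h5] at h1

theorem t_EM (hB1 : P_B1) (hB12 : P_B12) (hB13 : P_B13) (hD7 : P_D7) (hD8 : P_D8) (hC8 : P_C8)
    (hC12 : P_C12) (hB4v : P_B4v) (hE1 : P_E1) (hE2 : P_E2) (hE3 : P_E3) (hE4 : P_E4)
    (hE5 : P_E5) (hE6 : P_E6) (hE7 : P_E7) (hE8 : P_E8) (hE9 : P_E9) (hE11 : P_E11) : P_EM := by
  intro H _ _ _ 𝒜 U b m hG hm hU w hw T hTw hTn hdet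
  have hτ : TrSt (tauG 𝒜 U (b 0)) := hE1 H 𝒜 U (b 0) hG
  have hT : gen T 1 ∈ Gen 𝒜 U := by
    rw [hTw]
    exact EM_mem 𝒜 U w hw
  obtain ⟨c, hc, K, hK⟩ := hD8
    (fun k => NN (tauG 𝒜 U (b 0)) (ex (k : ℂ) (TG 𝒜 U T hT)))
    (EM_low hD7 hE3 hE5 𝒜 U (b 0) hτ T hT hTn (hE7 H 𝒜 U) hdet)
  have hcau := EM_cauchy hB12 𝒜 U (b 0) hτ (TG 𝒜 U T hT)
  have hre := EM_re hB13 hE6 𝒜 U (b 0) hτ T hT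
  have him := EM_im hB4v 𝒜 U (b 0) hτ (TG 𝒜 U T hT)
  have hlow := fun k hk hk2 =>
    EM_lowb hE2 hB1 𝒜 U (b 0) hτ (TG 𝒜 U T hT) c hc k hk (hK k hk2)
  have hev := EM_ev hE4 𝒜 U T hT
  generalize AA 𝒜 U (TG 𝒜 U T hT) = A at hcau hre him hlow hev
  obtain ⟨ψ, θ, y, hψmono, hψ1, hy, hns0⟩ :=
    EM_lim hE8 hE9 hE11 𝒜 U b m hG hm hU A hcau hre him c hc K hlow
  obtain ⟨X, hX⟩ := hC8 H b (fun i => evG 𝒜 U θ (A (ψ i))) (2 * ‖T‖)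
    (fun i => (hev (ψ i) (hψ1 i) θ).2) (fun r => ⟨_, hy r⟩)
  have hns : ¬ ∃ c : ℂ, X = c • 1 := by
    rintro ⟨z, hz⟩
    apply hns0
    refine ⟨z, fun r => ?_⟩
    rw [tendsto_nhds_unique (hy r) (hX (b r)), hz]
    rfl
  obtain ⟨V, hVc, hVb, hVt, hVi⟩ := hC12 H ((fourier 1 θ : ℂ) • T) ψ hψmono hψ1 X
    (fun v => (hX v).congr (fun i => by rw [(hev (ψ i) (hψ1 i) θ).1])) hns
  exact ⟨V, hVc, hVb, hVt, EM_scal T θ V hVi⟩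

end Pool.Agent.H712R5.BG
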