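import Pool.Agent.H712R5.BG.Stmts

set_option autoImplicit false
open scoped ComplexConjugate InnerProductSpace Topology
open Filter MeasureTheory NormedSpace

namespace Pool.Agent.H712R5.BG
open Pool.Agent.H712R5.BO

theorem t_F1 : P_F1 := by
  intro T hT
  let K := Lp.compMeasurePreservingₗᵢ ℂ (E := ℂ) (p := 2) T hT
  refine ⟨K.toContinuousLinearMap, ?_, ?_⟩
  · intro f
    exact Lp.coeFn_compMeasurePreserving f hT
  · intro f
    exact K.norm_map f

end Pool.Agent.H712R5.BG
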