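import Pool.Agent.H712R5.BG.Stmts

/-! Task F10: the invertible aperiodic case from EM. -/

set_option autoImplicit false
open scoped ComplexConjugate InnerProductSpace Topology
open Filter MeasureTheory NormedSpace

namespace Pool.Agent.H712R5.BG
open Pool.Agent.H712R5.BO

/-- an isometric surjective operator is unitary -/
theorem F10_unitary (K : LI →L[ℂ] LI) (hK : ∀ f, ‖K f‖ = ‖f‖) (hs : Function.Surjective K) :
    ∃ U : unitary (LI →L[ℂ] LI), (U : LI →L[ℂ] LI) = K := by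
  have hstar : star K * K = 1 := by
    have := (ContinuousLinearMap.norm_map_iff_adjoint_comp_self K).1 hK
    exact this
  have hstar2 : K * star K = 1 := by
    ext1 f
    obtain ⟨g, rfl⟩ := hs f
    have h1 : (star K * K) g = g := by rw [hstar]; rfl
    show K ((star K) (K g)) = K g
    exact congrArg K h1
  exact ⟨⟨K, Unitary.mem_iff.2 ⟨hstar, hstar2⟩⟩, rfl⟩

theorem F10_mul_unique (g : ℝ → ℂ) (M N : LI →L[ℂ] LI) (hM : IsMul g M) (hN : IsMul g N) :
    M = N := by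
  ext1 f
  apply Lp.ext
  filter_upwards [hM f, hN f] with x h1 h2
  rw [h1, h2]

theorem F10_mul_mul (g h : ℝ → ℂ) (M N : LI →L[ℂ] LI) (hM : IsMul g M) (hN : IsMul h N) :
    IsMul (fun x => g x * h x) (M * N) := by
  intro f
  filter_upwards [hM (N f), hN f] with x h1 h2
  show (M (N f) : ℝ → ℂ) x = _
  rw [h1, h2]
  ring

/-- `U M_g = M_{g ∘ T} U` -/
theorem F10_koop_mul (T : ℝ → ℝ) (hT : MeasurePreserving T μI μI) (K : LI →L[ℂ] LI)
    (hK : IsKoop T K) (g : ℝ → ℂ) (M : LI →L[ℂ] LI) (hM : IsMul g M) (f : LI) :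
    (K (M f) : ℝ → ℂ) =ᵐ[volume.restrict (Set.Ico (0:ℝ) 1)]
      (fun x => g (T x) * (K f : ℝ → ℂ) x) := by
  have h1 : (fun x => (M f : ℝ → ℂ) (T x)) =ᵐ[volume.restrict (Set.Ico (0:ℝ) 1)]
      (fun x => g (T x) * (f : ℝ → ℂ) (T x)) :=
    hT.quasiMeasurePreserving.ae_eq_comp (hM f)
  filter_upwards [hK (M f), hK f, h1] with x h2 h3 h4
  rw [h2, h3, h4]

theorem t_F10 (em : P_EM) (z1 : P_Z1) (z3 : P_Z3) (f3 : P_F3) (f5 : P_F5) (f8 : P_F8)
    (f9 : P_F9) : P_F10 := by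
  intro T hT K hK hiso hsurj haper A0 hA0
  obtain ⟨𝒜, h𝒜⟩ := f5
  obtain ⟨b, E, hb, hE⟩ := z3
  obtain ⟨U, hU⟩ := F10_unitary K hiso hsurj
  set e : ℝ := Real.exp 1 with he
  have he0 : (e : ℂ) ≠ 0 := by
    rw [he]; exact_mod_cast (Real.exp_pos 1).ne'
  set B : LI →L[ℂ] LI := (e : ℂ) • A0 with hBdef
  have hB : ∀ f : LI, (B f : ℝ → ℂ) =ᵐ[volume.restrict (Set.Ico (0:ℝ) 1)]
      (fun x : ℝ => ((Real.exp 1 * x : ℝ) : ℂ) * (f : ℝ → ℂ) (T x)) := by
    intro f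
    have h1 : B f = (e : ℂ) • A0 f := rfl
    rw [h1]
    filter_upwards [Lp.coeFn_smul (e : ℂ) (A0 f), hA0 f] with x hx hx0
    rw [hx, Pi.smul_apply, hx0, smul_eq_mul, ← he, Complex.ofReal_mul]
    ring
  -- the multiplications by characters
  have hch : ∀ r : ℤ, ∃ M : LI →L[ℂ] LI, M ∈ 𝒜 ∧ M (b 0) = b r := by
    intro r
    have hm : Measurable (fun x : ℝ => Complex.exp (2 * Real.pi * Complex.I * r * x)) := by
      fun_prop
    have hbd : ∀ x : ℝ, ‖Complex.exp (2 * Real.pi * Complex.I * r * x)‖ ≤ 1 := by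
      intro x
      have h1 : (2 * Real.pi * Complex.I * r * x : ℂ) = ((2 * Real.pi * r * x : ℝ) : ℂ) * Complex.I := by
        push_cast
        ring
      rw [h1, Complex.norm_exp_ofReal_mul_I]
    obtain ⟨M, -, hM⟩ := z1 _ 1 hm hbd
    refine ⟨M, (h𝒜 M).2 ⟨_, 1, hm, hbd, hM⟩, ?_⟩
    apply Lp.ext
    filter_upwards [hM (b 0), hb 0, hb r] with x h1 h2 h3
    rw [h1, h2, h3]
    simp
  choose m hm using hch
  have hv : (b 0 : ℝ → ℂ) =ᵐ[volume.restrict (Set.Ico (0:ℝ) 1)] (fun _ => 1) := by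
    filter_upwards [hb 0] with x hx
    rw [hx]
    simp
  have hUU : (U : LI →L[ℂ] LI) * star (U : LI →L[ℂ] LI) = 1 := (Unitary.mem_iff.mp U.2).2
  have hUU' : star (U : LI →L[ℂ] LI) * (U : LI →L[ℂ] LI) = 1 := (Unitary.mem_iff.mp U.2).1
  have hGD : GD 𝒜 U (b 0) := by
    refine ⟨?_, ?_, ?_, ?_, ?_⟩
    · intro a ha c hc
      obtain ⟨g, R, hg, hgR, hga⟩ := (h𝒜 a).1 ha
      obtain ⟨h, R', hh, hhR, hhc⟩ := (h𝒜 c).1 hc
      refine F10_mul_unique _ _ _ (F10_mul_mul g h a c hga hhc) ?_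
      have h1 := F10_mul_mul h g c a hhc hga
      intro f
      filter_upwards [h1 f] with x hx
      rw [hx]
      ring
    · intro a ha
      obtain ⟨g, R, hg, hgR, hga⟩ := (h𝒜 a).1 ha
      refine (h𝒜 _).2 ⟨fun x => g (T x), R, hg.comp hT.measurable, fun x => hgR _, ?_⟩
      intro f
      have h1 := F10_koop_mul T hT K hK g a hga (star (U : LI →L[ℂ] LI) f)
      have h2 : K (star (U : LI →L[ℂ] LI) f) = f := by
        have h3 : ((U : LI →L[ℂ] LI) * star (U : LI →L[ℂ] LI)) f = f := by rw [hUU]; rfl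
        rw [← hU]
        exact h3
      have h3 : ((U : LI →L[ℂ] LI) * a * star (U : LI →L[ℂ] LI)) f
          = K (a (star (U : LI →L[ℂ] LI) f)) := by
        rw [← hU]; rfl
      rw [h3]
      rw [h2] at h1
      exact h1
    · intro a ha
      obtain ⟨g, R, hg, hgR, hga⟩ := (h𝒜 a).1 ha
      obtain ⟨g', hg', hgR', hgg⟩ := f3 T hT K hK hsurj g R hg hgR
      obtain ⟨M, -, hM⟩ := z1 g' R hg' hgR'
      have h1 : star (U : LI →L[ℂ] LI) * a * (U : LI →L[ℂ] LI) = M := by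
        have h2 : a * (U : LI →L[ℂ] LI) = (U : LI →L[ℂ] LI) * M := by
          ext1 f
          apply Lp.ext
          have h3 := F10_koop_mul T hT K hK g' M hM f
          have h4 := hga (K f)
          rw [hU]
          filter_upwards [h3, h4, hgg] with x h5 h6 h7
          show (a (K f) : ℝ → ℂ) x = (K (M f) : ℝ → ℂ) x
          rw [h5, h6, ← h7]
        rw [mul_assoc, h2, ← mul_assoc, hUU', one_mul]
      rw [h1]
      exact (h𝒜 M).2 ⟨g', R, hg', hgR', hM⟩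
    · rw [hU]
      apply Lp.ext
      have h1 : (fun x => (b 0 : ℝ → ℂ) (T x)) =ᵐ[volume.restrict (Set.Ico (0:ℝ) 1)]
          (fun _ => (1 : ℂ)) := hT.quasiMeasurePreserving.ae_eq_comp hv
      filter_upwards [hK (b 0), h1, hv] with x h2 h3 h4
      rw [h2, h3, h4]
    · exact b.orthonormal.1 0
  have hUn : ∀ n : ℤ, n ≠ 0 → U ^ n ≠ 1 := by
    have hpos : ∀ k : ℕ, 1 ≤ k → U ^ k ≠ 1 := by
      intro k hk h
      apply haper k hk
      have h1 := congrArg (fun u : unitary (LI →L[ℂ] LI) => (u : LI →L[ℂ] LI)) h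
      simp only [SubmonoidClass.coe_pow, OneMemClass.coe_one] at h1
      rw [hU] at h1
      exact h1
    intro n hn h
    rcases Int.natAbs_eq n with h1 | h1
    · apply hpos n.natAbs (Nat.one_le_iff_ne_zero.2 (Int.natAbs_ne_zero.2 hn))
      rw [h1, zpow_natCast] at h
      exact h
    · apply hpos n.natAbs (Nat.one_le_iff_ne_zero.2 (Int.natAbs_ne_zero.2 hn))
      rw [h1, zpow_neg, zpow_natCast, inv_eq_one] at h
      exact h
  -- the weight
  have hwm : Measurable (fun x : ℝ => ((Real.exp 1 * Int.fract x : ℝ) : ℂ)) :=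
    Complex.measurable_ofReal.comp (measurable_fract.const_mul _)
  have hwb : ∀ x : ℝ, ‖((Real.exp 1 * Int.fract x : ℝ) : ℂ)‖ ≤ Real.exp 1 := by
    intro x
    rw [Complex.norm_real, Real.norm_of_nonneg
      (mul_nonneg (Real.exp_pos 1).le (Int.fract_nonneg _))]
    exact mul_le_of_le_one_right (Real.exp_pos 1).le (Int.fract_lt_one _).le
  obtain ⟨w, -, hw⟩ := z1 _ (Real.exp 1) hwm hwb
  have hw𝒜 : w ∈ 𝒜 := (h𝒜 w).2 ⟨_, _, hwm, hwb, hw⟩
  have hBw : B = w * (U : LI →L[ℂ] LI) := by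
    ext1 f
    apply Lp.ext
    rw [hU]
    have hmem : ∀ᵐ x ∂(volume.restrict (Set.Ico (0:ℝ) 1)), x ∈ Set.Ico (0:ℝ) 1 :=
      ae_restrict_mem measurableSet_Ico
    filter_upwards [hB f, hw (K f), hK f, hmem] with x h1 h2 h3 h4
    show (B f : ℝ → ℂ) x = (w (K f) : ℝ → ℂ) x
    rw [h1, h2, h3, Int.fract_eq_self.2 ⟨h4.1, h4.2⟩]
  obtain ⟨V, hV1, hV2, hV3, hV4⟩ := em LI 𝒜 U b m hGD hm hUn w hw𝒜 B hBw (f9 T hT B hB)
    (fun k δ _ hδ => f8 T hT K hK hiso hsurj B hB (b 0) hv k δ hδ)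
  refine ⟨V, hV1, hV2, hV3, fun v hv => ?_⟩
  have h6 : A0 v = (e : ℂ)⁻¹ • B v := by
    have h7 : B v = (e : ℂ) • A0 v := rfl
    rw [h7, smul_smul, inv_mul_cancel₀ he0, one_smul]
  rw [h6]
  exact V.smul_mem _ (hV4 v hv)

end Pool.Agent.H712R5.BG
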