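import Pool.Agent.H712R5.BG.Stmts

set_option autoImplicit false
open scoped ComplexConjugate InnerProductSpace Topology
open Filter MeasureTheory NormedSpace

namespace Pool.Agent.H712R5.BG
open Pool.Agent.H712R5.BO

theorem F2_norm (f : LI) : ‖f‖ ^ 2 = ∫ x, ‖(f : ℝ → ℂ) x‖ ^ 2 ∂μI := by
  have h : ⟪f, f⟫_ℂ = ((‖f‖ : ℝ) : ℂ) ^ 2 := inner_self_eq_norm_sq_to_K f
  rw [L2.inner_def] at h
  have h2 : ∀ x, ⟪(f : ℝ → ℂ) x, (f : ℝ → ℂ) x⟫_ℂ = ((‖(f : ℝ → ℂ) x‖ ^ 2 : ℝ) : ℂ) := by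
    intro x
    rw [inner_self_eq_norm_sq_to_K]
    push_cast
    rfl
  simp only [h2] at h
  have h3 : ∫ x, ((‖(f : ℝ → ℂ) x‖ ^ 2 : ℝ) : ℂ) ∂μI =
    ((∫ x, ‖(f : ℝ → ℂ) x‖ ^ 2 ∂μI : ℝ) : ℂ) := integral_ofReal
  have h4 : ((∫ x, ‖(f : ℝ → ℂ) x‖ ^ 2 ∂μI : ℝ) : ℂ) = ((‖f‖ : ℝ) : ℂ) ^ 2 := h3.symm.trans h
  exact_mod_cast h4.symm

theorem F2_iso (T : ℝ → ℝ) (hT : MeasurePreserving T μI μI) (K : LI →L[ℂ] LI)
    (hK : IsKoop T K) (f : LI) : ‖K f‖ = ‖f‖ := by
  rw [Lp.norm_def, Lp.norm_def, eLpNorm_congr_ae (hK f)]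
  have := eLpNorm_comp_measurePreserving (p := 2) (Lp.aestronglyMeasurable f) hT
  exact congrArg ENNReal.toReal this

/-- truncation -/
noncomputable def F2_phi (z : ℂ) : ℂ := ((min (max z.re 0) 1 : ℝ) : ℂ)

theorem F2_phi_cont : Continuous F2_phi := by
  unfold F2_phi
  fun_prop

theorem F2_phi_norm (z : ℂ) : ‖F2_phi z‖ ≤ 1 := by
  unfold F2_phi
  rw [Complex.norm_real, Real.norm_eq_abs, abs_le]
  constructor
  · have : 0 ≤ min (max z.re 0) 1 := le_min (le_max_right _ _) zero_le_one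
    linarith
  · exact min_le_right _ _

theorem F2_phi_zero : F2_phi 0 = 0 := by simp [F2_phi]

theorem F2_phi_one : F2_phi 1 = 1 := by simp [F2_phi]

theorem F2_ind (T : ℝ → ℝ) (hT : MeasurePreserving T μI μI) (K : LI →L[ℂ] LI)
    (hK : IsKoop T K) (A : LI →L[ℂ] LI)
    (hA : ∀ f : LI, (A f : ℝ → ℂ) =ᵐ[μI] (fun x : ℝ => (x : ℂ) * (f : ℝ → ℂ) (T x)))
    (hd : ∀ g : LI, g ∈ closure (Set.range A)) (s : Set ℝ) (hs : MeasurableSet s)
    (hμs : μI s ≠ ⊤) : indicatorConstLp 2 hs hμs (1 : ℂ) ∈ Set.range K := by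
  have hcl : IsClosed (Set.range K) := by
    have hiso : Isometry K := AddMonoidHomClass.isometry_of_norm K (F2_iso T hT K hK)
    exact hiso.isClosedEmbedding.isClosed_range
  have hx01 : ∀ᵐ x ∂μI, x ∈ Set.Ico (0 : ℝ) 1 := ae_restrict_mem measurableSet_Ico
  have hx0 : ∀ᵐ x ∂μI, x ≠ (0 : ℝ) := by
    refine ae_restrict_of_ae ?_
    exact compl_mem_ae_iff.2 (measure_singleton (0 : ℝ))
  set hh := indicatorConstLp 2 hs hμs (1 : ℂ) with hhh
  have hhv : (hh : ℝ → ℂ) =ᵐ[μI] s.indicator (fun _ => (1 : ℂ)) := indicatorConstLp_coeFn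
  have hgm : MemLp (fun x : ℝ => (x : ℂ) * s.indicator (fun _ => (1 : ℂ)) x) 2 μI := by
    refine MemLp.of_bound ?_ 1 ?_
    · refine Measurable.aestronglyMeasurable ?_
      exact Complex.measurable_ofReal.mul (measurable_const.indicator hs)
    · filter_upwards [hx01] with x hx
      rw [norm_mul, Complex.norm_real, Real.norm_eq_abs, abs_of_nonneg hx.1]
      have : ‖s.indicator (fun _ => (1 : ℂ)) x‖ ≤ 1 := by
        by_cases h : x ∈ s
        · rw [Set.indicator_of_mem h]; simp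
        · rw [Set.indicator_of_notMem h]; simp
      nlinarith [hx.1, hx.2, norm_nonneg (s.indicator (fun _ => (1 : ℂ)) x)]
  obtain ⟨y, hy, hyl⟩ := mem_closure_iff_seq_limit.1 (hd hgm.toLp)
  choose f hf using hy
  have hyl' : Tendsto (fun n => A (f n)) atTop (𝓝 hgm.toLp) := by
    simpa only [hf] using hyl
  obtain ⟨ns, hns, hae⟩ := (tendstoInMeasure_of_tendsto_Lp hyl').exists_seq_tendsto_ae
  have hae2 : ∀ᵐ x ∂μI, Tendsto (fun i => ((f (ns i) : LI) : ℝ → ℂ) (T x)) atTop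
      (𝓝 (s.indicator (fun _ => (1 : ℂ)) x)) := by
    have h1 : ∀ᵐ x ∂μI, ∀ i, (A (f (ns i)) : ℝ → ℂ) x = (x : ℂ) * ((f (ns i) : LI) : ℝ → ℂ) (T x) :=
      ae_all_iff.2 fun i => hA (f (ns i))
    filter_upwards [hae, h1, hx0, hgm.coeFn_toLp] with x hx1 hx2 hx3 hx4
    rw [hx4] at hx1
    simp only [hx2] at hx1
    have h3 : (x : ℂ) ≠ 0 := by exact_mod_cast hx3
    have h2 := hx1.const_mul ((x : ℂ)⁻¹)
    simpa only [← mul_assoc, inv_mul_cancel₀ h3, one_mul] using h2
  have hFm : ∀ i, MemLp (fun x => F2_phi (((f (ns i) : LI) : ℝ → ℂ) x)) 2 μI := by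
    intro i
    refine MemLp.of_bound ?_ 1 (Eventually.of_forall fun x => F2_phi_norm _)
    exact F2_phi_cont.comp_aestronglyMeasurable (Lp.aestronglyMeasurable _)
  have hKF : ∀ i, (K ((hFm i).toLp) : ℝ → ℂ) =ᵐ[μI]
      fun x => F2_phi (((f (ns i) : LI) : ℝ → ℂ) (T x)) := by
    intro i
    have h1 := hK ((hFm i).toLp)
    have h2 := hT.quasiMeasurePreserving.ae_eq_comp (hFm i).coeFn_toLp
    filter_upwards [h1, h2] with x hx1 hx2
    rw [hx1]
    exact hx2
  have hlim : Tendsto (fun i => K ((hFm i).toLp)) atTop (𝓝 hh) := by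
    rw [tendsto_iff_norm_sub_tendsto_zero]
    have h2 : Tendsto (fun i => ‖K ((hFm i).toLp) - hh‖ ^ 2) atTop (𝓝 0) := by
      have h3 : ∀ i, ‖K ((hFm i).toLp) - hh‖ ^ 2 = ∫ x, ‖F2_phi (((f (ns i) : LI) : ℝ → ℂ) (T x)) -
          s.indicator (fun _ => (1 : ℂ)) x‖ ^ 2 ∂μI := by
        intro i
        rw [F2_norm]
        refine integral_congr_ae ?_
        filter_upwards [Lp.coeFn_sub (K ((hFm i).toLp)) hh, hKF i, hhv] with x hx1 hx2 hx3
        rw [hx1, Pi.sub_apply, hx2, hx3]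
      simp only [h3]
      have h4 : Tendsto (fun i => ∫ x, ‖F2_phi (((f (ns i) : LI) : ℝ → ℂ) (T x)) -
          s.indicator (fun _ => (1 : ℂ)) x‖ ^ 2 ∂μI) atTop (𝓝 (∫ _ : ℝ, (0 : ℝ) ∂μI)) := by
        refine tendsto_integral_of_dominated_convergence (fun _ => (4 : ℝ)) ?_
          (integrable_const _) ?_ ?_
        · intro i
          have m1 : AEStronglyMeasurable (fun x => F2_phi (((f (ns i) : LI) : ℝ → ℂ) (T x))) μI :=
            (Lp.aestronglyMeasurable (K ((hFm i).toLp))).congr (hKF i)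
          have m2 : AEStronglyMeasurable (s.indicator (fun _ => (1 : ℂ))) μI :=
            (measurable_const.indicator hs).aestronglyMeasurable
          exact ((m1.sub m2).norm).pow 2
        · intro i
          refine Eventually.of_forall fun x => ?_
          have b1 := F2_phi_norm (((f (ns i) : LI) : ℝ → ℂ) (T x))
          have b2 : ‖s.indicator (fun _ => (1 : ℂ)) x‖ ≤ 1 := by
            by_cases h : x ∈ s
            · rw [Set.indicator_of_mem h]; simp
            · rw [Set.indicator_of_notMem h]; simp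
          have b3 := norm_sub_le (F2_phi (((f (ns i) : LI) : ℝ → ℂ) (T x)))
            (s.indicator (fun _ => (1 : ℂ)) x)
          rw [Real.norm_eq_abs, abs_of_nonneg (by positivity)]
          have b4 := norm_nonneg (F2_phi (((f (ns i) : LI) : ℝ → ℂ) (T x)) -
            s.indicator (fun _ => (1 : ℂ)) x)
          nlinarith
        · filter_upwards [hae2] with x hx
          have c1 := (F2_phi_cont.tendsto _).comp hx
          have c2 : F2_phi (s.indicator (fun _ => (1 : ℂ)) x) = s.indicator (fun _ => (1 : ℂ)) x := by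
            by_cases h : x ∈ s
            · rw [Set.indicator_of_mem h, F2_phi_one]
            · rw [Set.indicator_of_notMem h, F2_phi_zero]
          rw [c2] at c1
          have c3 := ((c1.sub_const (s.indicator (fun _ => (1 : ℂ)) x)).norm).pow 2
          simpa using c3
      simpa using h4
    have h5 := h2.sqrt
    simpa only [Real.sqrt_sq (norm_nonneg _), Real.sqrt_zero] using h5
  exact hcl.mem_of_tendsto hlim (Eventually.of_forall fun i => ⟨_, rfl⟩)

theorem t_F2 : P_F2 := by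
  intro T hT K hK hns A hA
  refine ⟨(LinearMap.range (A : LI →ₗ[ℂ] LI)).topologicalClosure,
    Submodule.isClosed_topologicalClosure _, ?_, ?_, ?_⟩
  · intro hbot
    have h1m : MemLp (fun _ : ℝ => (1 : ℂ)) 2 μI := memLp_const 1
    have h1 : A h1m.toLp = 0 := by
      have : A h1m.toLp ∈ (LinearMap.range (A : LI →ₗ[ℂ] LI)).topologicalClosure :=
        Submodule.le_topologicalClosure _ ⟨_, rfl⟩
      rw [hbot] at this
      exact (Submodule.mem_bot ℂ).1 this
    have h2 := hA h1m.toLp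
    rw [h1] at h2
    have h3 := hT.quasiMeasurePreserving.ae_eq_comp h1m.coeFn_toLp
    have h4 : ∀ᵐ x ∂μI, x = (0 : ℝ) := by
      filter_upwards [h2, h3, Lp.coeFn_zero ℂ 2 μI] with x hx1 hx2 hx3
      have hx4 : ((h1m.toLp : LI) : ℝ → ℂ) (T x) = 1 := hx2
      rw [hx3, hx4, mul_one, Pi.zero_apply] at hx1
      exact_mod_cast hx1.symm
    have h5 : μI {x | x ≠ (0 : ℝ)} = 0 := ae_iff.1 h4
    have h6 : μI (Set.Ioo (0 : ℝ) 1) ≤ μI {x | x ≠ (0 : ℝ)} :=
      measure_mono fun x hx => ne_of_gt hx.1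
    rw [h5, Measure.restrict_apply measurableSet_Ioo,
      Set.inter_eq_left.2 Set.Ioo_subset_Ico_self, Real.volume_Ioo] at h6
    norm_num at h6
  · intro htop
    apply hns
    have hd : ∀ g : LI, g ∈ closure (Set.range A) := by
      intro g
      have : g ∈ (LinearMap.range (A : LI →ₗ[ℂ] LI)).topologicalClosure := by
        rw [htop]
        exact Submodule.mem_top
      have h2 : g ∈ closure ((LinearMap.range (A : LI →ₗ[ℂ] LI) : Submodule ℂ LI) : Set LI) := this
      rwa [LinearMap.coe_range] at h2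
    have hcl : IsClosed (Set.range K) := by
      have hiso : Isometry K := AddMonoidHomClass.isometry_of_norm K (F2_iso T hT K hK)
      exact hiso.isClosedEmbedding.isClosed_range
    intro g
    show g ∈ Set.range K
    refine Lp.induction (by norm_num) (motive := fun g : LI => g ∈ Set.range K) ?_ ?_ ?_ g
    · intro c s hs hμs
      obtain ⟨u, hu⟩ := F2_ind T hT K hK A hA hd s hs hμs.ne
      refine ⟨c • u, ?_⟩
      rw [map_smul, hu, Lp.simpleFunc.coe_indicatorConst]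
      refine Lp.ext ?_
      filter_upwards [Lp.coeFn_smul c (indicatorConstLp 2 hs hμs.ne (1 : ℂ)),
        indicatorConstLp_coeFn (p := 2) (hs := hs) (hμs := hμs.ne) (c := (1 : ℂ)),
        indicatorConstLp_coeFn (p := 2) (hs := hs) (hμs := hμs.ne) (c := c)] with x h1 h2 h3
      rw [h1, Pi.smul_apply, h2, h3]
      by_cases h : x ∈ s
      · rw [Set.indicator_of_mem h, Set.indicator_of_mem h]; simp
      · rw [Set.indicator_of_notMem h, Set.indicator_of_notMem h]; simp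
    · rintro f g hf hg - ⟨a, ha⟩ ⟨b, hb⟩
      exact ⟨a + b, by rw [map_add, ha, hb]⟩
    · exact hcl
  · intro v _
    exact Submodule.le_topologicalClosure _ ⟨v, rfl⟩

end Pool.Agent.H712R5.BG
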