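import Pool.Agent.H712R5.BG.Stmts

set_option autoImplicit false
open scoped ComplexConjugate InnerProductSpace Topology
open Filter MeasureTheory NormedSpace

namespace Pool.Agent.H712R5.BG
open Pool.Agent.H712R5.BO

theorem t_F3 : P_F3 := by
  intro T hT K hK hsurj g R hg hR
  have hfin : IsFiniteMeasure μI := by
    constructor
    simp [μI]
  have hgL : MemLp g 2 μI := by
    refine MemLp.of_bound hg.aestronglyMeasurable R ?_
    exact Eventually.of_forall hR
  obtain ⟨f, hf⟩ := hsurj (hgL.toLp g)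
  have hR0 : 0 ≤ R := (norm_nonneg _).trans (hR 0)
  have hfm : Measurable (f : ℝ → ℂ) := (Lp.stronglyMeasurable f).measurable
  refine ⟨fun x => if ‖(f : ℝ → ℂ) x‖ ≤ R then (f : ℝ → ℂ) x else 0, ?_, ?_, ?_⟩
  · exact Measurable.ite (measurableSet_le hfm.norm measurable_const) hfm measurable_const
  · intro x
    show ‖if ‖(f : ℝ → ℂ) x‖ ≤ R then (f : ℝ → ℂ) x else 0‖ ≤ R
    split_ifs with h
    · exact h
    · simpa using hR0
  · have h1 := hK f
    rw [hf] at h1
    have h2 : ((hgL.toLp g : LI) : ℝ → ℂ) =ᵐ[volume.restrict (Set.Ico (0:ℝ) 1)] g := hgL.coeFn_toLp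
    filter_upwards [h1, h2] with x hx1 hx2
    have h3 : (f : ℝ → ℂ) (T x) = g x := by rw [← hx1, hx2]
    show (if ‖(f : ℝ → ℂ) (T x)‖ ≤ R then (f : ℝ → ℂ) (T x) else 0) = g x
    rw [h3, if_pos (hR x)]

end Pool.Agent.H712R5.BG
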