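import Pool.Agent.H712R5.BG.Stmts

set_option autoImplicit false
open scoped ComplexConjugate InnerProductSpace Topology
open Filter MeasureTheory NormedSpace

namespace Pool.Agent.H712R5.BG
open Pool.Agent.H712R5.BO

theorem F4_pow (T : ℝ → ℝ) (hT : MeasurePreserving T μI μI) (K : LI →L[ℂ] LI)
    (hK : IsKoop T K) (k : ℕ) (f : LI) :
    ((K ^ k) f : ℝ → ℂ) =ᵐ[volume.restrict (Set.Ico (0:ℝ) 1)]
      (fun x => (f : ℝ → ℂ) (T^[k] x)) := by
  induction k with
  | zero => exact Eventually.of_forall (fun x => rfl)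
  | succ k ih =>
    have h1 : (K ^ (k + 1)) f = K ((K ^ k) f) := by
      rw [pow_succ']
      rfl
    rw [h1]
    have h2 := hK ((K ^ k) f)
    have h3 := hT.quasiMeasurePreserving.ae ih
    filter_upwards [h2, h3] with x h4 h5
    rw [h4, h5, Function.iterate_succ_apply]

theorem t_F4 : P_F4 := by
  intro T hT K hK n hn hKn A hA
  have hTit : ∀ j : ℕ, MeasurePreserving T^[j] μI μI := fun j => hT.iterate j
  -- `T^[n] x = x` a.e.
  have hper : ∀ᵐ x ∂μI, T^[n] x = x := by
    have hmem : MemLp (fun x : ℝ => (x : ℂ)) 2 μI := by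
      refine MemLp.of_bound (Complex.measurable_ofReal.aestronglyMeasurable) 1 ?_
      rw [ae_restrict_iff' measurableSet_Ico]
      refine Eventually.of_forall (fun x hx => ?_)
      rw [Complex.norm_real, Real.norm_eq_abs, abs_of_nonneg hx.1]
      exact hx.2.le
    have h1 := F4_pow T hT K hK n (hmem.toLp _)
    rw [hKn] at h1
    have h2 : ((1 : LI →L[ℂ] LI) (hmem.toLp _) : ℝ → ℂ) =ᵐ[μI] fun x : ℝ => (x : ℂ) :=
      hmem.coeFn_toLp
    have h3 := (hTit n).quasiMeasurePreserving.ae hmem.coeFn_toLp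
    filter_upwards [h1, h2, h3] with x h4 h5 h6
    rw [h5, h6] at h4
    exact (Complex.ofReal_injective h4).symm
  have hnpos : (0 : ℝ) < n := by exact_mod_cast hn
  obtain ⟨c, hc0, hc1, hcn⟩ : ∃ c : ℝ, 0 < c ∧ c < 1 ∧ (n : ℝ) * c < 1 := by
    refine ⟨1 / (2 * n), by positivity, ?_, ?_⟩
    · have h1n : (1 : ℝ) ≤ n := by exact_mod_cast hn
      rw [div_lt_one (by positivity)]
      linarith
    · rw [mul_one_div, div_lt_one (by positivity)]
      linarith
  let E : Set ℝ := ⋂ j ∈ Finset.range n, (T^[j]) ⁻¹' (Set.Ioi c)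
  have hEmem : ∀ x, x ∈ E ↔ ∀ j < n, c < T^[j] x := by
    intro x
    simp only [E, Set.mem_iInter, Finset.mem_range, Set.mem_preimage, Set.mem_Ioi]
  have hEm : MeasurableSet E :=
    Finset.measurableSet_biInter _ (fun j _ => (hTit j).measurable measurableSet_Ioi)
  have hIic : μI (Set.Iic c) = ENNReal.ofReal c := by
    rw [Measure.restrict_apply measurableSet_Iic]
    have : Set.Iic c ∩ Set.Ico (0:ℝ) 1 = Set.Icc 0 c := by
      ext x
      simp only [Set.mem_inter_iff, Set.mem_Iic, Set.mem_Ico, Set.mem_Icc]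
      constructor
      · rintro ⟨h1, h2, h3⟩
        exact ⟨h2, h1⟩
      · rintro ⟨h1, h2⟩
        exact ⟨h2, h1, lt_of_le_of_lt h2 hc1⟩
    rw [this, Real.volume_Icc, sub_zero]
  have huniv : μI Set.univ = 1 := by
    rw [Measure.restrict_apply_univ, Real.volume_Ico, sub_zero, ENNReal.ofReal_one]
  have hEc : μI Eᶜ ≤ ENNReal.ofReal ((n : ℝ) * c) := by
    have h1 : Eᶜ ⊆ ⋃ j ∈ Finset.range n, (T^[j]) ⁻¹' (Set.Iic c) := by
      intro x hx
      rw [Set.mem_compl_iff, hEmem] at hx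
      push Not at hx
      obtain ⟨j, hj, hjc⟩ := hx
      simp only [Set.mem_iUnion, Finset.mem_range, Set.mem_preimage, Set.mem_Iic]
      exact ⟨j, hj, hjc⟩
    calc μI Eᶜ ≤ μI (⋃ j ∈ Finset.range n, (T^[j]) ⁻¹' (Set.Iic c)) := measure_mono h1
      _ ≤ ∑ j ∈ Finset.range n, μI ((T^[j]) ⁻¹' (Set.Iic c)) := measure_biUnion_finset_le _ _
      _ = ∑ j ∈ Finset.range n, ENNReal.ofReal c := by
          apply Finset.sum_congr rfl
          intro j _
          rw [(hTit j).measure_preimage measurableSet_Iic.nullMeasurableSet, hIic]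
      _ = ENNReal.ofReal ((n : ℝ) * c) := by
          rw [Finset.sum_const, Finset.card_range, nsmul_eq_mul, ENNReal.ofReal_mul hnpos.le,
            ENNReal.ofReal_natCast]
  have hE0 : μI E ≠ 0 := by
    intro h0
    have h1 : μI Set.univ ≤ μI E + μI Eᶜ := by
      rw [← Set.union_compl_self E]
      exact measure_union_le _ _
    rw [huniv, h0, zero_add] at h1
    have h2 := h1.trans hEc
    have h3 : ENNReal.ofReal ((n : ℝ) * c) < 1 := by
      rw [← ENNReal.ofReal_one]
      exact (ENNReal.ofReal_lt_ofReal_iff one_pos).2 hcn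
    exact absurd h2 (not_le.2 h3)
  have hEc0 : μI Eᶜ ≠ 0 := by
    intro h0
    have h1 : Set.Iic c ⊆ Eᶜ := by
      intro x hx
      rw [Set.mem_compl_iff, hEmem]
      intro h2
      have := h2 0 (by omega)
      exact absurd this (not_lt.2 hx)
    have h2 := measure_mono (μ := μI) h1
    rw [hIic, h0] at h2
    have h3 : 0 < ENNReal.ofReal c := ENNReal.ofReal_pos.2 hc0
    exact absurd h2 (not_le.2 h3)
  -- invariance
  have hinv : ∀ᵐ x ∂μI, x ∈ Eᶜ → T x ∈ Eᶜ := by
    filter_upwards [hper] with x hx hxE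
    rw [Set.mem_compl_iff, hEmem] at hxE ⊢
    intro h1
    apply hxE
    intro j hj
    rcases Nat.eq_zero_or_pos j with h0 | h0
    · have h2 := h1 (n - 1) (by omega)
      rw [← Function.iterate_succ_apply, Nat.succ_eq_add_one, Nat.sub_add_cancel hn, hx] at h2
      rw [h0]
      exact h2
    · have h2 := h1 (j - 1) (by omega)
      rw [← Function.iterate_succ_apply, Nat.succ_eq_add_one, Nat.sub_add_cancel h0] at h2
      exact h2
  let R := LpToLpRestrictCLM ℝ ℂ ℂ μI 2 Eᶜ
  have hR : ∀ f : LI, R f = 0 ↔ ∀ᵐ x ∂μI, x ∈ Eᶜ → (f : ℝ → ℂ) x = 0 := by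
    intro f
    rw [← ae_restrict_iff' hEm.compl, Lp.ext_iff]
    have h1 : (R f : ℝ → ℂ) =ᵐ[μI.restrict Eᶜ] f := LpToLpRestrictCLM_coeFn ℂ Eᶜ f
    have h2 : ((0 : Lp ℂ 2 (μI.restrict Eᶜ)) : ℝ → ℂ) =ᵐ[μI.restrict Eᶜ] 0 := Lp.coeFn_zero _ _ _
    constructor
    · intro h3
      filter_upwards [h1, h2, h3] with x h4 h5 h6
      rw [← h4, h6, h5]
      rfl
    · intro h3
      filter_upwards [h1, h2, h3] with x h4 h5 h6
      rw [h4, h6, h5]
      rfl
  refine ⟨LinearMap.ker R.toLinearMap, ?_, ?_, ?_, ?_⟩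
  · exact isClosed_singleton.preimage R.continuous
  · intro hbot
    let g : LI := indicatorConstLp 2 hEm (measure_ne_top μI E) (1 : ℂ)
    have hg : (g : ℝ → ℂ) =ᵐ[μI] E.indicator fun _ => (1 : ℂ) := indicatorConstLp_coeFn
    have h1 : g ∈ LinearMap.ker R.toLinearMap := by
      rw [LinearMap.mem_ker]
      change R g = 0
      rw [hR]
      filter_upwards [hg] with x h2 h3
      rw [h2, Set.indicator_of_notMem h3]
    rw [hbot, Submodule.mem_bot] at h1
    apply hE0
    have h2 : (g : ℝ → ℂ) =ᵐ[μI] 0 := by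
      rw [h1]
      exact Lp.coeFn_zero _ _ _
    have h3 : ∀ᵐ x ∂μI, x ∉ E := by
      filter_upwards [hg, h2] with x h4 h5 h6
      rw [h4, Set.indicator_of_mem h6] at h5
      exact one_ne_zero h5
    have h4 : μI {x | ¬ (x ∉ E)} = 0 := h3
    have h5 : {x | ¬ (x ∉ E)} = E := by
      ext x
      rw [Set.mem_setOf_eq, not_not]
    rwa [h5] at h4
  · intro htop
    let g : LI := indicatorConstLp 2 MeasurableSet.univ (measure_ne_top μI Set.univ) (1 : ℂ)
    have hg : (g : ℝ → ℂ) =ᵐ[μI] Set.univ.indicator fun _ => (1 : ℂ) := indicatorConstLp_coeFn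
    have h1 : g ∈ LinearMap.ker R.toLinearMap := by
      rw [htop]
      exact Submodule.mem_top
    rw [LinearMap.mem_ker] at h1
    have h1' : R g = 0 := h1
    rw [hR] at h1'
    apply hEc0
    have h3 : ∀ᵐ x ∂μI, x ∉ Eᶜ := by
      filter_upwards [hg, h1'] with x h4 h5 h6
      have h7 := h5 h6
      rw [h4, Set.indicator_of_mem (Set.mem_univ x)] at h7
      exact one_ne_zero h7
    have h4 : μI {x | ¬ (x ∉ Eᶜ)} = 0 := h3
    have h5 : {x | ¬ (x ∉ Eᶜ)} = Eᶜ := by
      ext x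
      rw [Set.mem_setOf_eq, not_not]
    rwa [h5] at h4
  · intro f hf
    rw [LinearMap.mem_ker] at hf ⊢
    change R f = 0 at hf
    change R (A f) = 0
    rw [hR] at hf ⊢
    have h1 := hT.quasiMeasurePreserving.ae hf
    filter_upwards [h1, hinv, hA f] with x h2 h3 h4 h5
    rw [h4, h2 (h3 h5), mul_zero]

end Pool.Agent.H712R5.BG
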