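import Pool.Agent.H712R5.BG.Stmts
import Pool.Agent.H712R5.BO.Z1

set_option autoImplicit false
open scoped ComplexConjugate InnerProductSpace Topology
open Filter MeasureTheory NormedSpace

namespace Pool.Agent.H712R5.BG
open Pool.Agent.H712R5.BO

theorem F5_star {g : ℝ → ℂ} {R : ℝ} (hg : Measurable g) (hb : ∀ x, ‖g x‖ ≤ R)
    {M : LI →L[ℂ] LI} (hM : IsMul g M) : IsMul (fun x => conj (g x)) (star M) := by
  obtain ⟨M', -, hM'⟩ := t_Z1 (fun x => conj (g x)) R (Complex.continuous_conj.measurable.comp hg)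
    (fun x => by rw [RCLike.norm_conj]; exact hb x)
  have h : M' = ContinuousLinearMap.adjoint M := by
    rw [ContinuousLinearMap.eq_adjoint_iff]
    intro x y
    rw [L2.inner_def, L2.inner_def]
    refine integral_congr_ae ?_
    filter_upwards [hM' x, hM y] with t h1 h2
    rw [h1, h2]
    simp only [RCLike.inner_apply, map_mul, RCLike.conj_conj]
    ring
  rw [ContinuousLinearMap.star_eq_adjoint, ← h]
  exact hM'

theorem t_F5 : P_F5 := by
  refine ⟨{
    carrier := {M | ∃ (g : ℝ → ℂ) (R : ℝ), Measurable g ∧ (∀ x, ‖g x‖ ≤ R) ∧ IsMul g M}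
    mul_mem' := ?_
    add_mem' := ?_
    algebraMap_mem' := ?_
    star_mem' := ?_ }, fun M => Iff.rfl⟩
  · rintro M1 M2 ⟨g1, R1, m1, b1, h1⟩ ⟨g2, R2, m2, b2, h2⟩
    refine ⟨fun x => g1 x * g2 x, R1 * R2, m1.mul m2, fun x => ?_, fun f => ?_⟩
    · rw [norm_mul]
      exact mul_le_mul (b1 x) (b2 x) (norm_nonneg _) ((norm_nonneg _).trans (b1 x))
    · filter_upwards [h1 (M2 f), h2 f] with x e1 e2
      rw [ContinuousLinearMap.mul_apply, e1, e2]
      ring
  · rintro M1 M2 ⟨g1, R1, m1, b1, h1⟩ ⟨g2, R2, m2, b2, h2⟩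
    refine ⟨fun x => g1 x + g2 x, R1 + R2, m1.add m2, fun x => ?_, fun f => ?_⟩
    · exact (norm_add_le _ _).trans (add_le_add (b1 x) (b2 x))
    · filter_upwards [h1 f, h2 f, Lp.coeFn_add (M1 f) (M2 f)] with x e1 e2 e3
      rw [ContinuousLinearMap.add_apply, e3, Pi.add_apply, e1, e2]
      ring
  · intro c
    refine ⟨fun _ => c, ‖c‖, measurable_const, fun _ => le_rfl, fun f => ?_⟩
    filter_upwards [Lp.coeFn_smul c f] with x e1
    rw [Algebra.algebraMap_eq_smul_one, ContinuousLinearMap.smul_apply,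
      ContinuousLinearMap.one_apply, e1, Pi.smul_apply, smul_eq_mul]
  · rintro M ⟨g, R, m, b, h⟩
    refine ⟨fun x => conj (g x), R, Complex.continuous_conj.measurable.comp m, fun x => ?_,
      F5_star m b h⟩
    rw [RCLike.norm_conj]
    exact b x

end Pool.Agent.H712R5.BG
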