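import Pool.Agent.H712R5.BG.Stmts

set_option autoImplicit false
open scoped ComplexConjugate InnerProductSpace Topology
open Filter MeasureTheory NormedSpace

namespace Pool.Agent.H712R5.BG
open Pool.Agent.H712R5.BO

theorem t_F6 : P_F6 := by
  intro T hT B hB k
  induction k with
  | zero =>
    intro f
    refine Eventually.of_forall fun x => ?_
    simp
  | succ k ih =>
    intro f
    have h1 : (B ^ (k + 1)) f = B ((B ^ k) f) := by
      rw [pow_succ']; rfl
    rw [h1]
    have h2 := hB ((B ^ k) f)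
    have h3 : ∀ᵐ x ∂(volume.restrict (Set.Ico (0:ℝ) 1)), ((B ^ k) f : ℝ → ℂ) (T x) =
        ((∏ j ∈ Finset.range k, (Real.exp 1 * Int.fract (T^[j] (T x))) : ℝ) : ℂ)
        * (f : ℝ → ℂ) (T^[k] (T x)) :=
      hT.quasiMeasurePreserving.ae (ih f)
    have h4 : ∀ᵐ x ∂(volume.restrict (Set.Ico (0:ℝ) 1)), x ∈ Set.Ico (0:ℝ) 1 :=
      ae_restrict_mem measurableSet_Ico
    filter_upwards [h2, h3, h4] with x e2 e3 e4
    rw [e2, e3, Finset.prod_range_succ']
    have hf : Int.fract x = x := Int.fract_eq_self.2 ⟨e4.1, e4.2⟩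
    simp only [Function.iterate_succ_apply, Function.iterate_zero, id_eq, hf]
    push_cast
    ring

end Pool.Agent.H712R5.BG
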