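import Pool.Agent.H712R5.BG.Stmts

set_option autoImplicit false
open scoped ComplexConjugate InnerProductSpace Topology
open Filter MeasureTheory

namespace Pool.Agent.H712R5.BG
open Pool.Agent.H712R5.BO

theorem F7_log_int : Integrable Real.log μI := by
  have h : IntervalIntegrable Real.log volume 0 1 := intervalIntegral.intervalIntegrable_log'
  rw [intervalIntegrable_iff_integrableOn_Ico_of_le zero_le_one] at h
  exact h

theorem F7_log_val : ∫ x, Real.log x ∂μI = -1 := by
  have h : ∫ x in (0:ℝ)..1, Real.log x = -1 := by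
    rw [integral_log]; simp
  rw [intervalIntegral.integral_of_le zero_le_one, ← integral_Ico_eq_integral_Ioc] at h
  exact h

theorem F7_fract_ae : ∀ᵐ x ∂μI, Int.fract x = x := by
  have : ∀ᵐ x ∂(volume.restrict (Set.Ico (0:ℝ) 1)), x ∈ Set.Ico (0:ℝ) 1 :=
    ae_restrict_mem measurableSet_Ico
  filter_upwards [this] with x hx
  exact Int.fract_eq_self.2 ⟨hx.1, hx.2⟩

theorem F7_lf_int : Integrable (fun x : ℝ => Real.log (Int.fract x)) μI := by
  refine F7_log_int.congr ?_
  filter_upwards [F7_fract_ae] with x hx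
  rw [hx]

theorem F7_lf_val : ∫ x, Real.log (Int.fract x) ∂μI = -1 := by
  rw [← F7_log_val]
  refine integral_congr_ae ?_
  filter_upwards [F7_fract_ae] with x hx
  rw [hx]

theorem F7_lf_meas : Measurable (fun x : ℝ => Real.log (Int.fract x)) :=
  Real.measurable_log.comp measurable_fract

theorem t_F7 : P_F7 := by
  intro T hT k δ hδ
  have : IsProbabilityMeasure μI := ⟨by simp⟩
  have hm : ∀ j : ℕ, MeasurePreserving (T^[j]) μI μI := fun j => hT.iterate j
  have hint : ∀ j : ℕ, Integrable (fun x : ℝ => Real.log (Int.fract (T^[j] x))) μI := by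
    intro j
    have := (hm j).integrable_comp (g := fun x : ℝ => Real.log (Int.fract x))
      F7_lf_meas.aestronglyMeasurable
    exact this.2 F7_lf_int
  have hval : ∀ j : ℕ, ∫ x, Real.log (Int.fract (T^[j] x)) ∂μI = -1 := by
    intro j
    have h1 : ∫ y, Real.log (Int.fract y) ∂(Measure.map (T^[j]) μI)
        = ∫ x, Real.log (Int.fract (T^[j] x)) ∂μI :=
      integral_map (hm j).measurable.aemeasurable F7_lf_meas.aestronglyMeasurable
    rw [← h1, (hm j).map_eq]
    exact F7_lf_val
  have hpos : ∀ j : ℕ, ∀ᵐ x ∂μI, 0 < Int.fract (T^[j] x) := by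
    intro j
    have h0 : ∀ᵐ y ∂μI, Int.fract y ≠ 0 := by
      have h00 : ∀ᵐ y ∂μI, y ≠ 0 := ae_restrict_of_ae (Measure.ae_ne volume 0)
      filter_upwards [h00, F7_fract_ae] with y hy hy2
      rw [hy2]; exact hy
    have h1 : ∀ᵐ x ∂μI, Int.fract (T^[j] x) ≠ 0 := (hm j).quasiMeasurePreserving.ae h0
    filter_upwards [h1] with x hx
    exact lt_of_le_of_ne (Int.fract_nonneg _) (Ne.symm hx)
  -- the lower function
  have hlow_int : Integrable (fun x : ℝ => ∑ j ∈ Finset.range k,
      2 * (1 + Real.log (Int.fract (T^[j] x)))) μI := by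
    refine integrable_finsetSum _ (fun j _ => ?_)
    exact ((integrable_const (1:ℝ)).add (hint _)).const_mul 2
  have hlow_val : ∫ x, (∑ j ∈ Finset.range k,
      2 * (1 + Real.log (Int.fract (T^[j] x)))) ∂μI = 0 := by
    rw [integral_finsetSum]
    · refine Finset.sum_eq_zero (fun j _ => ?_)
      rw [integral_const_mul, integral_add (integrable_const (1:ℝ)) (hint _), hval]
      simp
    · intro j _
      exact ((integrable_const (1:ℝ)).add (hint _)).const_mul 2
  have hprod_nonneg : ∀ x : ℝ, 0 ≤ (∏ j ∈ Finset.range k,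
      (Real.exp 1 * Int.fract (T^[j] x))) ^ 2 := fun x => sq_nonneg _
  have hprod_le : ∀ x : ℝ, (∏ j ∈ Finset.range k,
      (Real.exp 1 * Int.fract (T^[j] x))) ^ 2 ≤ ((Real.exp 1) ^ k) ^ 2 := by
    intro x
    have h0 : 0 ≤ ∏ j ∈ Finset.range k, (Real.exp 1 * Int.fract (T^[j] x)) :=
      Finset.prod_nonneg (fun j _ => mul_nonneg (Real.exp_pos 1).le (Int.fract_nonneg _))
    have h1 : ∏ j ∈ Finset.range k, (Real.exp 1 * Int.fract (T^[j] x)) ≤ (Real.exp 1) ^ k := by
      calc ∏ j ∈ Finset.range k, (Real.exp 1 * Int.fract (T^[j] x))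
          ≤ ∏ j ∈ Finset.range k, (Real.exp 1) := by
            refine Finset.prod_le_prod
              (fun j _ => mul_nonneg (Real.exp_pos 1).le (Int.fract_nonneg _)) (fun j _ => ?_)
            have h2 : Int.fract (T^[j] x) ≤ 1 := (Int.fract_lt_one _).le
            have h3 : 0 < Real.exp 1 := Real.exp_pos 1
            nlinarith
        _ = (Real.exp 1) ^ k := by simp
    exact pow_le_pow_left₀ h0 h1 2
  have hF_meas : AEStronglyMeasurable (fun x : ℝ => Real.log (δ + (∏ j ∈ Finset.range k,
      (Real.exp 1 * Int.fract (T^[j] x))) ^ 2)) μI := by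
    refine Measurable.aestronglyMeasurable ?_
    refine Real.measurable_log.comp (measurable_const.add ?_)
    refine Measurable.pow_const ?_ 2
    refine Finset.measurable_prod _ (fun j _ => ?_)
    exact (measurable_fract.comp (hm j).measurable).const_mul _
  have hF_int : Integrable (fun x : ℝ => Real.log (δ + (∏ j ∈ Finset.range k,
      (Real.exp 1 * Int.fract (T^[j] x))) ^ 2)) μI := by
    refine Integrable.of_bound hF_meas
      (max |Real.log δ| |Real.log (δ + ((Real.exp 1) ^ k) ^ 2)|)
      (Eventually.of_forall (fun x => ?_))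
    rw [Real.norm_eq_abs]
    have h1 : Real.log δ ≤ Real.log (δ + (∏ j ∈ Finset.range k,
      (Real.exp 1 * Int.fract (T^[j] x))) ^ 2) :=
      Real.log_le_log hδ (by linarith [hprod_nonneg x])
    have h2 : Real.log (δ + (∏ j ∈ Finset.range k,
      (Real.exp 1 * Int.fract (T^[j] x))) ^ 2) ≤
        Real.log (δ + ((Real.exp 1) ^ k) ^ 2) :=
      Real.log_le_log (by linarith [hprod_nonneg x]) (by linarith [hprod_le x])
    exact abs_le_max_abs_abs h1 h2
  refine le_trans (le_of_eq hlow_val.symm) ?_
  refine integral_mono_ae hlow_int hF_int ?_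
  have hall : ∀ᵐ x ∂μI, ∀ j : ℕ, 0 < Int.fract (T^[j] x) := by
    rw [ae_all_iff]
    intro j
    exact hpos _
  filter_upwards [hall] with x hx
  have hpp0 : 0 < ∏ j ∈ Finset.range k, (Real.exp 1 * Int.fract (T^[j] x)) := by
    refine Finset.prod_pos (fun j hj => ?_)
    have := hx j
    positivity
  have hpp : 0 < (∏ j ∈ Finset.range k, (Real.exp 1 * Int.fract (T^[j] x))) ^ 2 := by
    positivity
  have e1 : ∑ j ∈ Finset.range k, 2 * (1 + Real.log (Int.fract (T^[j] x)))
      = Real.log ((∏ j ∈ Finset.range k,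
      (Real.exp 1 * Int.fract (T^[j] x))) ^ 2) := by
    rw [Real.log_pow, Real.log_prod]
    · rw [Finset.mul_sum]
      refine Finset.sum_congr rfl (fun j hj => ?_)
      have h1 := hx j
      rw [Real.log_mul (Real.exp_pos 1).ne' h1.ne', Real.log_exp]
      norm_num
    · intro j hj
      have := hx j
      positivity
  rw [e1]
  exact Real.log_le_log hpp (by linarith)

end Pool.Agent.H712R5.BG
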