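import Pool.Agent.H712R5.BG.Stmts
import Pool.Agent.H712R5.BO.B4v
import Pool.Agent.H712R5.BO.Z5

set_option autoImplicit false
open scoped ComplexConjugate InnerProductSpace Topology
open Filter MeasureTheory NormedSpace

namespace Pool.Agent.H712R5.BG
open Pool.Agent.H712R5.BO

theorem F8_Kpow (T : ℝ → ℝ) (hT : MeasurePreserving T μI μI) (K : LI →L[ℂ] LI) (hK : IsKoop T K)
    (k : ℕ) (f : LI) :
    ((K ^ k) f : ℝ → ℂ) =ᵐ[volume.restrict (Set.Ico (0:ℝ) 1)] (fun x => (f : ℝ → ℂ) (T^[k] x)) := by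
  induction k generalizing f with
  | zero => simp
  | succ k ih =>
    have h1 : (K ^ (k + 1)) f = (K ^ k) (K f) := by rw [pow_succ]; rfl
    rw [h1]
    have h2 : ∀ᵐ x ∂(volume.restrict (Set.Ico (0:ℝ) 1)),
        (K f : ℝ → ℂ) (T^[k] x) = (f : ℝ → ℂ) (T (T^[k] x)) :=
      (hT.iterate k).quasiMeasurePreserving.ae (hK f)
    filter_upwards [ih (K f), h2] with x e1 e2
    rw [e1, e2, Function.iterate_succ_apply']

/-- the weight -/
noncomputable def F8_w (T : ℝ → ℝ) (k : ℕ) (x : ℝ) : ℝ :=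
  ∏ j ∈ Finset.range k, (Real.exp 1 * Int.fract (T^[j] x))

theorem F8_w_meas (T : ℝ → ℝ) (hT : Measurable T) (k : ℕ) : Measurable (F8_w T k) := by
  unfold F8_w
  apply Finset.measurable_prod
  intro j _
  exact (measurable_fract.comp (hT.iterate j)).const_mul _

theorem F8_w_bd (T : ℝ → ℝ) (k : ℕ) (x : ℝ) : 0 ≤ F8_w T k x ∧ F8_w T k x ≤ Real.exp 1 ^ k := by
  unfold F8_w
  constructor
  · exact Finset.prod_nonneg (fun j _ => mul_nonneg (Real.exp_pos 1).le (Int.fract_nonneg _))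
  · calc ∏ j ∈ Finset.range k, (Real.exp 1 * Int.fract (T^[j] x))
        ≤ ∏ _j ∈ Finset.range k, Real.exp 1 := by
          apply Finset.prod_le_prod
          · intro j _
            exact mul_nonneg (Real.exp_pos 1).le (Int.fract_nonneg _)
          · intro j _
            calc Real.exp 1 * Int.fract (T^[j] x) ≤ Real.exp 1 * 1 :=
                  mul_le_mul_of_nonneg_left (Int.fract_lt_one _).le (Real.exp_pos 1).le
              _ = Real.exp 1 := mul_one _
      _ = Real.exp 1 ^ k := by simp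

theorem t_F8 (z1 : P_Z1) (z5 : P_Z5) (f6 : P_F6) (f7 : P_F7) : P_F8 := by
  intro T hT K hK hiso hsurj B hB v hv k δ hδ
  -- `K` is unitary
  have hKK : star K * K = 1 := by
    have := (ContinuousLinearMap.norm_map_iff_adjoint_comp_self K).1 hiso
    rw [ContinuousLinearMap.star_eq_adjoint]
    exact this
  have hKK' : K * star K = 1 := by
    ext1 y
    obtain ⟨x, rfl⟩ := hsurj y
    have h1 : (K * star K) (K x) = K ((star K * K) x) := rfl
    rw [h1, hKK]
    rfl
  have hKu : K ∈ unitary (LI →L[ℂ] LI) := Unitary.mem_iff.mpr ⟨hKK, hKK'⟩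
  have hKku : K ^ k ∈ unitary (LI →L[ℂ] LI) := pow_mem hKu k
  -- the multiplication operator
  obtain ⟨W, -, hW⟩ := z1 (fun x => (F8_w T k x : ℂ)) (Real.exp 1 ^ k)
    (Complex.measurable_ofReal.comp (F8_w_meas T hT.measurable k)) (fun x => by
      rw [Complex.norm_real, Real.norm_eq_abs, abs_of_nonneg (F8_w_bd T k x).1]
      exact (F8_w_bd T k x).2)
  have hBW : B ^ k = W * K ^ k := by
    ext1 f
    apply Lp.ext
    have e1 : (W * K ^ k) f = W ((K ^ k) f) := rfl
    rw [e1]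
    filter_upwards [f6 T hT B hB k f, hW ((K ^ k) f), F8_Kpow T hT K hK k f] with x h1 h2 h3
    rw [h1, h2, h3]
    rfl
  have hWsa : star W = W := (Z5_sym W (F8_w T k) hW).star_eq
  set D : LI →L[ℂ] LI := algebraMap ℝ (LI →L[ℂ] LI) δ + star W * W with hD
  have hDf : ∀ f : LI, (D f : ℝ → ℂ) =ᵐ[volume.restrict (Set.Ico (0:ℝ) 1)]
      (fun x => ((δ + F8_w T k x ^ 2 : ℝ) : ℂ) * (f : ℝ → ℂ) x) := by
    intro f
    have e3 : D f = δ • f + W (W f) := by
      rw [hD, hWsa, Algebra.algebraMap_eq_smul_one]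
      rfl
    rw [e3]
    filter_upwards [Lp.coeFn_add (δ • f) (W (W f)), Lp.coeFn_smul δ f, hW (W f), hW f]
      with x h1 h2 h3 h4
    rw [h1, Pi.add_apply, h2, h3, h4, Pi.smul_apply, Complex.real_smul]
    push_cast
    ring
  have hDsa : IsSelfAdjoint D := Z5_sym D (fun x => δ + F8_w T k x ^ 2) hDf
  have hu : star (K ^ k) * K ^ k = 1 := (Unitary.mem_iff.mp hKku).1
  have hBB : algebraMap ℝ (LI →L[ℂ] LI) δ + star (B ^ k) * B ^ k = star (K ^ k) * D * K ^ k := by
    rw [hBW, hD, star_mul, mul_add, add_mul]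
    have e4 : star (K ^ k) * algebraMap ℝ (LI →L[ℂ] LI) δ * K ^ k =
        algebraMap ℝ (LI →L[ℂ] LI) δ := by
      rw [← Algebra.commutes, mul_assoc, hu, mul_one]
    rw [e4]
    simp only [mul_assoc]
  rw [hBB, B4v_log_conj (K ^ k) hKku D hDsa]
  have hKv : (K ^ k) v = v := by
    apply Lp.ext
    have h2 : ∀ᵐ x ∂(volume.restrict (Set.Ico (0:ℝ) 1)), (v : ℝ → ℂ) (T^[k] x) = 1 :=
      (hT.iterate k).quasiMeasurePreserving.ae hv
    filter_upwards [F8_Kpow T hT K hK k v, h2, hv] with x h1 h2 h3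
    rw [h1, h2, h3]
  have e2 : (star (K ^ k) * CFC.log D * K ^ k) v = star (K ^ k) (CFC.log D ((K ^ k) v)) := rfl
  rw [e2, hKv, ContinuousLinearMap.star_eq_adjoint, ContinuousLinearMap.adjoint_inner_right, hKv]
  have h5 := z5 D (fun x => δ + F8_w T k x ^ 2) δ (δ + (Real.exp 1 ^ k) ^ 2) v hδ
    ((F8_w_meas T hT.measurable k).pow_const 2 |>.const_add δ) (fun x => by
      obtain ⟨h0, h1⟩ := F8_w_bd T k x
      constructor
      · have := sq_nonneg (F8_w T k x)
        linarith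
      · have := pow_le_pow_left₀ h0 h1 2
        linarith) hDf hv
  rw [h5]
  exact f7 T hT k δ hδ

end Pool.Agent.H712R5.BG
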