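import Pool.Agent.H712R5.BG.Stmts

set_option autoImplicit false
open scoped ComplexConjugate InnerProductSpace Topology
open Filter MeasureTheory NormedSpace

namespace Pool.Agent.H712R5.BG
open Pool.Agent.H712R5.BO

theorem t_F9 : P_F9 := by
  intro T hT B hB
  refine ContinuousLinearMap.opNorm_le_bound _ (by norm_num) fun f => ?_
  have h1 : ∀ᵐ x ∂(volume.restrict (Set.Ico (0:ℝ) 1)),
      ‖(B f : ℝ → ℂ) x‖ ≤ 3 * ‖((f : ℝ → ℂ) ∘ T) x‖ := by
    filter_upwards [hB f, ae_restrict_mem (μ := volume) measurableSet_Ico] with x e2 e4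
    rw [e2, norm_mul, Function.comp_apply]
    apply mul_le_mul_of_nonneg_right _ (norm_nonneg _)
    rw [Complex.norm_real, Real.norm_of_nonneg (mul_nonneg (Real.exp_pos 1).le e4.1)]
    have h5 := Real.exp_one_lt_d9
    have h6 : Real.exp 1 * x ≤ Real.exp 1 * 1 :=
      mul_le_mul_of_nonneg_left e4.2.le (Real.exp_pos 1).le
    linarith
  have h2 := eLpNorm_le_mul_eLpNorm_of_ae_le_mul h1 2
  have h3 : eLpNorm ((f : ℝ → ℂ) ∘ T) 2 (volume.restrict (Set.Ico (0:ℝ) 1)) =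
      eLpNorm (f : ℝ → ℂ) 2 (volume.restrict (Set.Ico (0:ℝ) 1)) :=
    eLpNorm_comp_measurePreserving (Lp.aestronglyMeasurable f) hT
  rw [h3] at h2
  rw [Lp.norm_def, Lp.norm_def]
  calc (eLpNorm (B f : ℝ → ℂ) 2 (volume.restrict (Set.Ico (0:ℝ) 1))).toReal
      ≤ (ENNReal.ofReal 3 * eLpNorm (f : ℝ → ℂ) 2 (volume.restrict (Set.Ico (0:ℝ) 1))).toReal :=
        ENNReal.toReal_mono (ENNReal.mul_ne_top ENNReal.ofReal_ne_top (Lp.eLpNorm_ne_top f)) h2
    _ = 3 * (eLpNorm (f : ℝ → ℂ) 2 (volume.restrict (Set.Ico (0:ℝ) 1))).toReal := by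
        rw [ENNReal.toReal_mul, ENNReal.toReal_ofReal (by norm_num)]

end Pool.Agent.H712R5.BG
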