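import Pool.Agent.H712R5.BG.Stmts
set_option autoImplicit false
open MeasureTheory
namespace Pool.Agent.H712R5.BG
open Pool.Agent.H712R5.BO

theorem t_GFIN (h1 : P_F1) (h2 : P_F2) (h4 : P_F4) (h10 : P_F10) : P_GFIN := by
  intro T hT A hA
  obtain ⟨K, hK, hKn⟩ := h1 T hT
  by_cases hs : Function.Surjective K
  · by_cases hp : ∀ n : ℕ, 1 ≤ n → K ^ n ≠ 1
    · exact h10 T hT K hK hKn hs hp A hA
    · push Not at hp
      obtain ⟨n, hn, hn1⟩ := hp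
      exact h4 T hT K hK n hn hn1 A hA
  · exact h2 T hT K hK hs A hA

theorem GFIN_Ioo (h : P_GFIN) : ∀ T : ℝ → ℝ,
    MeasurePreserving T (volume.restrict (Set.Ioo (0:ℝ) 1)) (volume.restrict (Set.Ioo (0:ℝ) 1)) →
    ∀ A : Lp ℂ (2 : ENNReal) (volume.restrict (Set.Ioo (0:ℝ) 1)) →L[ℂ]
        Lp ℂ (2 : ENNReal) (volume.restrict (Set.Ioo (0:ℝ) 1)),
    (∀ f : Lp ℂ (2 : ENNReal) (volume.restrict (Set.Ioo (0:ℝ) 1)),
      (A f : ℝ → ℂ) =ᵐ[volume.restrict (Set.Ioo (0:ℝ) 1)]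
        fun x => (x : ℂ) * (f : ℝ → ℂ) (T x)) →
    ∃ V : Submodule ℂ (Lp ℂ (2 : ENNReal) (volume.restrict (Set.Ioo (0:ℝ) 1))),
      IsClosed (V : Set (Lp ℂ (2 : ENNReal) (volume.restrict (Set.Ioo (0:ℝ) 1)))) ∧
      V ≠ ⊥ ∧ V ≠ ⊤ ∧ ∀ v ∈ V, A v ∈ V := by
  have hμ : volume.restrict (Set.Ioo (0:ℝ) 1) = volume.restrict (Set.Ico (0:ℝ) 1) :=
    Measure.restrict_congr_set Ioo_ae_eq_Ico
  rw [hμ]
  exact h

end Pool.Agent.H712R5.BG
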