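import Pool.Agent.H712R5.BG.Defs

/-!
Bishop operators over arbitrary measure preserving maps (helper712).  Statements.
-/

set_option autoImplicit false
open scoped ComplexConjugate InnerProductSpace Topology
open Filter MeasureTheory NormedSpace

namespace Pool.Agent.H712R5.BG
open Pool.Agent.H712R5.BO

/-- E0: every element of `adjoin (gset)` is in the linear span of `gset` -/
def P_E0 : Prop := ∀ (H : Type) [NormedAddCommGroup H] [InnerProductSpace ℂ H] [CompleteSpace H]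
  (𝒜 : StarSubalgebra ℂ (H →L[ℂ] H)) (U : unitary (H →L[ℂ] H)) (e : H), GD 𝒜 U e →
  ∀ A ∈ StarAlgebra.adjoin ℂ (gset 𝒜 U), A ∈ Submodule.span ℂ (gset 𝒜 U)

/-- E1: `tauG` is a tracial state on `Gen` -/
def P_E1 : Prop := ∀ (H : Type) [NormedAddCommGroup H] [InnerProductSpace ℂ H] [CompleteSpace H]
  (𝒜 : StarSubalgebra ℂ (H →L[ℂ] H)) (U : unitary (H →L[ℂ] H)) (e : H), GD 𝒜 U e →
  TrSt (tauG 𝒜 U e)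

/-- E2: the 2-norm -/
def P_E2 : Prop := ∀ (H : Type) [NormedAddCommGroup H] [InnerProductSpace ℂ H] [CompleteSpace H]
  (𝒜 : StarSubalgebra ℂ (H →L[ℂ] H)) (U : unitary (H →L[ℂ] H)) (v : H) (A : Gen 𝒜 U),
  (n2 (tauG 𝒜 U v) A) ^ 2 = ∫ θ, ‖evG 𝒜 U θ A v‖ ^ 2 ∂AddCircle.haarAddCircle

/-- E3: rotation invariance of `NN (exp(k z T))` -/
def P_E3 : Prop := ∀ (H : Type) [NormedAddCommGroup H] [InnerProductSpace ℂ H] [CompleteSpace H]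
  (𝒜 : StarSubalgebra ℂ (H →L[ℂ] H)) (U : unitary (H →L[ℂ] H)),
  (∀ A ∈ Gen 𝒜 U, ∀ s : UnitAddCircle, rot s A ∈ Gen 𝒜 U) →
  ∀ (v : H) (T : H →L[ℂ] H) (hT : gen T 1 ∈ Gen 𝒜 U) (k M j : ℕ),
  NN (tauG 𝒜 U v) (ex (k * rt M j) (TG 𝒜 U T hT)) = NN (tauG 𝒜 U v) (ex (k : ℂ) (TG 𝒜 U T hT))

/-- E4: evaluation of `Lg`, and norm bound -/
def P_E4 : Prop := ∀ (H : Type) [NormedAddCommGroup H] [InnerProductSpace ℂ H] [CompleteSpace H]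
  (𝒜 : StarSubalgebra ℂ (H →L[ℂ] H)) (U : unitary (H →L[ℂ] H)) (T : H →L[ℂ] H) (hT : gen T 1 ∈ Gen 𝒜 U) (k : ℕ)
  (θ : UnitAddCircle),
  evG 𝒜 U θ (Lg (ex (k : ℂ) (TG 𝒜 U T hT))) = Lg (ex (k : ℂ) ((fourier 1 θ : ℂ) • T)) ∧
  ‖Lg (ex (k : ℂ) ((fourier 1 θ : ℂ) • T))‖ ≤ 2 * k * ‖T‖

/-- E5: the trace of `log (δ + |T^k|^2)` -/
def P_E5 : Prop := ∀ (H : Type) [NormedAddCommGroup H] [InnerProductSpace ℂ H] [CompleteSpace H]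
  (𝒜 : StarSubalgebra ℂ (H →L[ℂ] H)) (U : unitary (H →L[ℂ] H)) (v : H) (T : H →L[ℂ] H) (hT : gen T 1 ∈ Gen 𝒜 U)
  (k : ℕ) (δ : ℝ), 0 < δ →
  tauG 𝒜 U v (CFC.log (algebraMap ℝ (Gen 𝒜 U) δ + star ((TG 𝒜 U T hT) ^ k) * (TG 𝒜 U T hT) ^ k))
    = ⟪v, CFC.log (algebraMap ℝ (H →L[ℂ] H) δ + star (T ^ k) * T ^ k) v⟫_ℂ

/-- E6: the trace of `T` vanishes -/
def P_E6 : Prop := ∀ (H : Type) [NormedAddCommGroup H] [InnerProductSpace ℂ H] [CompleteSpace H]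
  (𝒜 : StarSubalgebra ℂ (H →L[ℂ] H)) (U : unitary (H →L[ℂ] H)) (v : H) (T : H →L[ℂ] H) (hT : gen T 1 ∈ Gen 𝒜 U),
  tauG 𝒜 U v (TG 𝒜 U T hT) = 0

/-- E7: `Gen` is rotation invariant -/
def P_E7 : Prop := ∀ (H : Type) [NormedAddCommGroup H] [InnerProductSpace ℂ H] [CompleteSpace H]
  (𝒜 : StarSubalgebra ℂ (H →L[ℂ] H)) (U : unitary (H →L[ℂ] H)),
  ∀ A ∈ Gen 𝒜 U, ∀ s : UnitAddCircle, rot s A ∈ Gen 𝒜 U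

/-- E8: right multiplication by elements of `𝒜` is bounded for the 2-norm -/
def P_E8 : Prop := ∀ (H : Type) [NormedAddCommGroup H] [InnerProductSpace ℂ H] [CompleteSpace H]
  (𝒜 : StarSubalgebra ℂ (H →L[ℂ] H)) (U : unitary (H →L[ℂ] H)) (e : H), GD 𝒜 U e →
  ∀ (A : Gen 𝒜 U) (m : H →L[ℂ] H), m ∈ 𝒜 →
  ∫ θ, ‖evG 𝒜 U θ A (m e)‖ ^ 2 ∂AddCircle.haarAddCircle
    ≤ ‖m‖ ^ 2 * (n2 (tauG 𝒜 U e) A) ^ 2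

/-- E9: countably many Cauchy sequences in `L²(𝕋; H)`: a.e. convergence along one subsequence -/
def P_E9 : Prop := ∀ (H : Type) [NormedAddCommGroup H] [InnerProductSpace ℂ H] [CompleteSpace H]
  (y : ℤ → ℕ → UnitAddCircle → H), (∀ r k, Continuous (y r k)) →
  (∀ r, ∀ ε > (0:ℝ), ∃ K : ℕ, ∀ k ≥ K, ∀ m ≥ K,
    ∫ θ, ‖y r k θ - y r m θ‖ ^ 2 ∂AddCircle.haarAddCircle < ε) →
  ∃ (φ : ℕ → ℕ) (Y : ℤ → UnitAddCircle → H), StrictMono φ ∧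
    (∀ r, MemLp (Y r) 2 AddCircle.haarAddCircle) ∧
    (∀ᵐ θ ∂AddCircle.haarAddCircle, ∀ r, Tendsto (fun i => y r (φ i) θ) atTop (𝓝 (Y r θ))) ∧
    (∀ r, Tendsto (fun i => ∫ θ, ‖y r (φ i) θ - Y r θ‖ ^ 2 ∂AddCircle.haarAddCircle)
      atTop (𝓝 0))

/-- E10: Fourier coefficients of elements of `Gen` -/
def P_E10 : Prop := ∀ (H : Type) [NormedAddCommGroup H] [InnerProductSpace ℂ H] [CompleteSpace H]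
  (𝒜 : StarSubalgebra ℂ (H →L[ℂ] H)) (U : unitary (H →L[ℂ] H)) (e : H), GD 𝒜 U e →
  ∀ (A : Gen 𝒜 U) (m : H →L[ℂ] H), m ∈ 𝒜 → ∀ n : ℤ,
  ∫ θ, (fourier (-n) θ : ℂ) • evG 𝒜 U θ A (m e) ∂AddCircle.haarAddCircle
    = (((U ^ n : unitary (H →L[ℂ] H)) : H →L[ℂ] H) * m
        * star ((U ^ n : unitary (H →L[ℂ] H)) : H →L[ℂ] H))
      (∫ θ, (fourier (-n) θ : ℂ) • evG 𝒜 U θ A e ∂AddCircle.haarAddCircle)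

/-- E11: the limit is not scalar -/
def P_E11 : Prop := ∀ (H : Type) [NormedAddCommGroup H] [InnerProductSpace ℂ H] [CompleteSpace H]
  (𝒜 : StarSubalgebra ℂ (H →L[ℂ] H)) (U : unitary (H →L[ℂ] H)) (b : HilbertBasis ℤ ℂ H)
  (m : ℤ → (H →L[ℂ] H)), GD 𝒜 U (b 0) → (∀ r, m r ∈ 𝒜 ∧ m r (b 0) = b r) →
  (∀ n : ℤ, n ≠ 0 → U ^ n ≠ 1) →
  ∀ (A : ℕ → Gen 𝒜 U) (Y : ℤ → UnitAddCircle → H),
  (∀ r, MemLp (Y r) 2 AddCircle.haarAddCircle) →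
  (∀ r, Tendsto (fun i => ∫ θ, ‖evG 𝒜 U θ (A i) (b r) - Y r θ‖ ^ 2
    ∂AddCircle.haarAddCircle) atTop (𝓝 0)) →
  (∀ i, (tauG 𝒜 U (b 0) (A i)).re = 0) →
  (∀ i, (tauG 𝒜 U (b 0) (A i)).im = 0) →
  (∃ c > (0:ℝ), ∀ i, c ≤ ∫ θ, ‖evG 𝒜 U θ (A i) (b 0)‖ ^ 2 ∂AddCircle.haarAddCircle) →
  ¬ (∀ᵐ θ ∂AddCircle.haarAddCircle, ∃ z : ℂ, ∀ r, Y r θ = z • b r)

/-- EM: the abstract theorem -/
def P_EM : Prop := ∀ (H : Type) [NormedAddCommGroup H] [InnerProductSpace ℂ H] [CompleteSpace H]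
  (𝒜 : StarSubalgebra ℂ (H →L[ℂ] H)) (U : unitary (H →L[ℂ] H)) (b : HilbertBasis ℤ ℂ H)
  (m : ℤ → (H →L[ℂ] H)), GD 𝒜 U (b 0) → (∀ r, m r ∈ 𝒜 ∧ m r (b 0) = b r) →
  (∀ n : ℤ, n ≠ 0 → U ^ n ≠ 1) →
  ∀ w ∈ 𝒜, ∀ T : H →L[ℂ] H, T = w * (U : H →L[ℂ] H) → ‖T‖ ≤ 3 →
  (∀ (k : ℕ) (δ : ℝ), 1 ≤ k → 0 < δ →
    0 ≤ (⟪b 0, CFC.log (algebraMap ℝ (H →L[ℂ] H) δ + star (T ^ k) * T ^ k) (b 0)⟫_ℂ).re) →
  ∃ V : Submodule ℂ H, IsClosed (V : Set H) ∧ V ≠ ⊥ ∧ V ≠ ⊤ ∧ ∀ v ∈ V, T v ∈ V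

/-! ## concrete part -/

/-- Lebesgue measure on `[0,1)` -/
noncomputable abbrev μI : Measure ℝ := volume.restrict (Set.Ico (0:ℝ) 1)

/-- `K` is the composition operator of `T` -/
def IsKoop (T : ℝ → ℝ) (K : LI →L[ℂ] LI) : Prop :=
  ∀ f : LI, (K f : ℝ → ℂ) =ᵐ[volume.restrict (Set.Ico (0:ℝ) 1)] (fun x => (f : ℝ → ℂ) (T x))

/-- `M` is the multiplication by `g` -/
def IsMul (g : ℝ → ℂ) (M : LI →L[ℂ] LI) : Prop :=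
  ∀ f : LI, (M f : ℝ → ℂ) =ᵐ[volume.restrict (Set.Ico (0:ℝ) 1)] (fun x => g x * (f : ℝ → ℂ) x)

/-- F1: the composition operator exists and is isometric, and it is unique -/
def P_F1 : Prop := ∀ T : ℝ → ℝ, MeasurePreserving T μI μI →
  ∃ K : LI →L[ℂ] LI, IsKoop T K ∧ (∀ f, ‖K f‖ = ‖f‖)

/-- F2: if the composition operator is not surjective -/
def P_F2 : Prop := ∀ (T : ℝ → ℝ), MeasurePreserving T μI μI →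
  ∀ K : LI →L[ℂ] LI, IsKoop T K → ¬ Function.Surjective K →
  ∀ A : LI →L[ℂ] LI, (∀ f : LI, (A f : ℝ → ℂ) =ᵐ[volume.restrict (Set.Ico (0:ℝ) 1)]
    (fun x : ℝ => (x : ℂ) * (f : ℝ → ℂ) (T x))) →
  ∃ V : Submodule ℂ LI, IsClosed (V : Set LI) ∧ V ≠ ⊥ ∧ V ≠ ⊤ ∧ ∀ v ∈ V, A v ∈ V

/-- F3: bounded functions are images of bounded functions if `K` is surjective -/
def P_F3 : Prop := ∀ (T : ℝ → ℝ), MeasurePreserving T μI μI →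
  ∀ K : LI →L[ℂ] LI, IsKoop T K → Function.Surjective K →
  ∀ (g : ℝ → ℂ) (R : ℝ), Measurable g → (∀ x, ‖g x‖ ≤ R) →
  ∃ g' : ℝ → ℂ, Measurable g' ∧ (∀ x, ‖g' x‖ ≤ R) ∧
    (fun x => g' (T x)) =ᵐ[volume.restrict (Set.Ico (0:ℝ) 1)] g

/-- F4: the periodic case -/
def P_F4 : Prop := ∀ (T : ℝ → ℝ), MeasurePreserving T μI μI →
  ∀ K : LI →L[ℂ] LI, IsKoop T K → ∀ n : ℕ, 1 ≤ n → K ^ n = 1 →
  ∀ A : LI →L[ℂ] LI, (∀ f : LI, (A f : ℝ → ℂ) =ᵐ[volume.restrict (Set.Ico (0:ℝ) 1)]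
    (fun x : ℝ => (x : ℂ) * (f : ℝ → ℂ) (T x))) →
  ∃ V : Submodule ℂ LI, IsClosed (V : Set LI) ∧ V ≠ ⊥ ∧ V ≠ ⊤ ∧ ∀ v ∈ V, A v ∈ V

/-- F5: the algebra of multiplication operators -/
def P_F5 : Prop := ∃ 𝒜 : StarSubalgebra ℂ (LI →L[ℂ] LI), ∀ M : LI →L[ℂ] LI,
  M ∈ 𝒜 ↔ ∃ (g : ℝ → ℂ) (R : ℝ), Measurable g ∧ (∀ x, ‖g x‖ ≤ R) ∧ IsMul g M

/-- F6: formula for the powers -/
def P_F6 : Prop := ∀ (T : ℝ → ℝ), MeasurePreserving T μI μI →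
  ∀ B : LI →L[ℂ] LI, (∀ f : LI, (B f : ℝ → ℂ) =ᵐ[volume.restrict (Set.Ico (0:ℝ) 1)]
    (fun x : ℝ => ((Real.exp 1 * x : ℝ) : ℂ) * (f : ℝ → ℂ) (T x))) →
  ∀ (k : ℕ) (f : LI), ((B ^ k) f : ℝ → ℂ) =ᵐ[volume.restrict (Set.Ico (0:ℝ) 1)]
    (fun x => ((∏ j ∈ Finset.range k, (Real.exp 1 * Int.fract (T^[j] x)) : ℝ) : ℂ)
      * (f : ℝ → ℂ) (T^[k] x))

/-- F7: log-integral lower bound -/
def P_F7 : Prop := ∀ (T : ℝ → ℝ), MeasurePreserving T μI μI → ∀ (k : ℕ) (δ : ℝ), 0 < δ →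
  0 ≤ ∫ x in Set.Ico (0:ℝ) 1,
    Real.log (δ + (∏ j ∈ Finset.range k, (Real.exp 1 * Int.fract (T^[j] x))) ^ 2)

/-- F8: the determinants of the powers -/
def P_F8 : Prop := ∀ (T : ℝ → ℝ), MeasurePreserving T μI μI →
  ∀ K : LI →L[ℂ] LI, IsKoop T K → (∀ f, ‖K f‖ = ‖f‖) → Function.Surjective K →
  ∀ B : LI →L[ℂ] LI, (∀ f : LI, (B f : ℝ → ℂ) =ᵐ[volume.restrict (Set.Ico (0:ℝ) 1)]
    (fun x : ℝ => ((Real.exp 1 * x : ℝ) : ℂ) * (f : ℝ → ℂ) (T x))) →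
  ∀ v : LI, (v : ℝ → ℂ) =ᵐ[volume.restrict (Set.Ico (0:ℝ) 1)] (fun _ => 1) →
  ∀ (k : ℕ) (δ : ℝ), 0 < δ →
    0 ≤ (⟪v, CFC.log (algebraMap ℝ (LI →L[ℂ] LI) δ + star (B ^ k) * B ^ k) v⟫_ℂ).re

/-- F9: norm bound -/
def P_F9 : Prop := ∀ (T : ℝ → ℝ), MeasurePreserving T μI μI →
  ∀ B : LI →L[ℂ] LI, (∀ f : LI, (B f : ℝ → ℂ) =ᵐ[volume.restrict (Set.Ico (0:ℝ) 1)]
    (fun x : ℝ => ((Real.exp 1 * x : ℝ) : ℂ) * (f : ℝ → ℂ) (T x))) → ‖B‖ ≤ 3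

/-- F10: the invertible aperiodic case -/
def P_F10 : Prop := ∀ (T : ℝ → ℝ), MeasurePreserving T μI μI →
  ∀ K : LI →L[ℂ] LI, IsKoop T K → (∀ f, ‖K f‖ = ‖f‖) → Function.Surjective K →
  (∀ n : ℕ, 1 ≤ n → K ^ n ≠ 1) →
  ∀ A : LI →L[ℂ] LI, (∀ f : LI, (A f : ℝ → ℂ) =ᵐ[volume.restrict (Set.Ico (0:ℝ) 1)]
    (fun x : ℝ => (x : ℂ) * (f : ℝ → ℂ) (T x))) →
  ∃ V : Submodule ℂ LI, IsClosed (V : Set LI) ∧ V ≠ ⊥ ∧ V ≠ ⊤ ∧ ∀ v ∈ V, A v ∈ V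

/-- FIN: all measure preserving maps -/
def P_GFIN : Prop := ∀ T : ℝ → ℝ, MeasurePreserving T μI μI →
  ∀ A : LI →L[ℂ] LI, (∀ f : LI, (A f : ℝ → ℂ) =ᵐ[volume.restrict (Set.Ico (0:ℝ) 1)]
    (fun x : ℝ => (x : ℂ) * (f : ℝ → ℂ) (T x))) →
  ∃ V : Submodule ℂ LI, IsClosed (V : Set LI) ∧ V ≠ ⊥ ∧ V ≠ ⊤ ∧ ∀ v ∈ V, A v ∈ V

end Pool.Agent.H712R5.BG
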